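import Pool.Agent.H3.AM.Targets

/-!
# A1, A3: character theory of a finite group (type level)
-/

open scoped Classical ComplexConjugate ComplexOrder

namespace AMc

section

variable {G : Type} [Group G] [Fintype G] {n : ℕ}

theorem conj_character (ρ : Representation ℂ G (Fin n → ℂ)) (g : G) :
    conj (ρ.character g) = ρ.character g⁻¹ := by
  classical
  let M : G → Matrix (Fin n) (Fin n) ℂ := fun g => LinearMap.toMatrix' (ρ g)
  have hM1 : M 1 = 1 := by
    simp only [M, map_one]
    exact LinearMap.toMatrix'_one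
  have hMmul : ∀ a b, M (a * b) = M a * M b := by
    intro a b
    simp only [M, map_mul]
    exact LinearMap.toMatrix'_mul _ _
  have htr : ∀ a, ρ.character a = (M a).trace := by
    intro a
    simp only [M, Representation.character]
    rw [LinearMap.trace_eq_matrix_trace ℂ (Pi.basisFun ℂ (Fin n))]
    rfl
  let P : Matrix (Fin n) (Fin n) ℂ := ∑ a : G, (M a).conjTranspose * M a
  have hP : P.PosDef := by
    have h1 : P = (M 1).conjTranspose * M 1 + ∑ a ∈ Finset.univ.erase (1 : G),
        (M a).conjTranspose * M a := by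
      rw [Finset.add_sum_erase _ (fun a => (M a).conjTranspose * M a) (Finset.mem_univ _)]
    rw [h1]
    refine Matrix.PosDef.add_posSemidef ?_ ?_
    · rw [hM1]; simp [Matrix.PosDef.one]
    · exact Matrix.posSemidef_sum _ fun a _ => Matrix.posSemidef_conjTranspose_mul_self _
  have hinv : ∀ g, (M g).conjTranspose * P * M g = P := by
    intro g
    simp only [P, Finset.mul_sum, Finset.sum_mul]
    rw [← Equiv.sum_comp (Equiv.mulRight g) (fun a => (M a).conjTranspose * M a)]
    refine Finset.sum_congr rfl fun a _ => ?_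
    simp only [Equiv.coe_mulRight, hMmul, Matrix.conjTranspose_mul, Matrix.mul_assoc]
  have hPu : IsUnit P := hP.isUnit
  obtain ⟨u, hu⟩ := hPu
  have hgi : M g * M g⁻¹ = 1 := by rw [← hMmul, mul_inv_cancel, hM1]
  have h2 : (M g).conjTranspose = P * M g⁻¹ * (↑u⁻¹ : Matrix (Fin n) (Fin n) ℂ) := by
    have h3 : (M g).conjTranspose * P = P * M g⁻¹ := by
      calc (M g).conjTranspose * P = (M g).conjTranspose * P * (M g * M g⁻¹) := by
            rw [hgi, mul_one]
        _ = ((M g).conjTranspose * P * M g) * M g⁻¹ := by simp only [mul_assoc]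
        _ = P * M g⁻¹ := by rw [hinv]
    rw [← h3, ← hu, mul_assoc, Units.mul_inv, mul_one]
  rw [htr, htr]
  have h4 : conj ((M g).trace) = ((M g).conjTranspose).trace := by
    rw [Matrix.trace_conjTranspose]; rfl
  rw [h4, h2, Matrix.trace_mul_comm, ← hu, ← mul_assoc, Units.inv_mul, one_mul]

theorem isIntegral_character (ρ : Representation ℂ G (Fin n → ℂ)) (g : G) :
    IsIntegral ℤ (ρ.character g) := by
  classical
  have hm : (ρ g) ^ (Fintype.card G) = 1 := by
    rw [← map_pow, pow_card_eq_one, map_one]
  have htr : ρ.character g = (LinearMap.toMatrix' (ρ g)).trace := by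
    simp only [Representation.character]
    rw [LinearMap.trace_eq_matrix_trace ℂ (Pi.basisFun ℂ (Fin n))]
    rfl
  rw [htr, Matrix.trace_eq_sum_roots_charpoly]
  refine Multiset.sum_induction _ _ (fun a b ha hb => ha.add hb) isIntegral_zero ?_
  intro z hz
  have hz' := (Polynomial.mem_roots'.mp hz).2
  have h1 : ((ρ g).charpoly).IsRoot z := by
    have : (ρ g).charpoly = (LinearMap.toMatrix' (ρ g)).charpoly := by
      rw [← LinearMap.charpoly_toMatrix (ρ g) (Pi.basisFun ℂ (Fin n))]
      rfl
    rw [this]; exact hz'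
  have h2 : Module.End.HasEigenvalue (ρ g) z := by
    rw [Module.End.hasEigenvalue_iff_isRoot_charpoly]; exact h1
  obtain ⟨v, hv⟩ := h2.exists_hasEigenvector
  have h3 : z ^ (Fintype.card G) = 1 := by
    have h4 : ((ρ g) ^ (Fintype.card G)) v = z ^ (Fintype.card G) • v := by
      exact hv.pow_apply _
    rw [hm, Module.End.one_apply] at h4
    have h5 : (z ^ (Fintype.card G) - 1) • v = 0 := by
      rw [sub_smul, one_smul, ← h4, sub_self]
    rcases smul_eq_zero.mp h5 with h | h
    · exact sub_eq_zero.mp h
    · exact absurd h hv.2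
  refine IsIntegral.of_pow (Fintype.card_pos (α := G)) ?_
  rw [h3]; exact isIntegral_one

theorem finrank_eq_one_irreducible (ρ : Representation ℂ G (Fin n → ℂ))
    (h : Module.finrank ℂ (Representation.IntertwiningMap ρ ρ) = 1) : ρ.IsIrreducible := by
  classical
  have hne : (1 : Representation.IntertwiningMap ρ ρ) ≠ 0 := by
    intro h0
    have : Subsingleton (Representation.IntertwiningMap ρ ρ) :=
      ⟨fun a b => by rw [← one_mul a, ← one_mul b, h0, zero_mul, zero_mul]⟩
    rw [Module.finrank_zero_of_subsingleton] at h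
    exact zero_ne_one h
  have hsc := (finrank_eq_one_iff_of_nonzero' (1 : Representation.IntertwiningMap ρ ρ) hne).mp h
  have : NeZero (Nat.card G : ℂ) := ⟨by exact_mod_cast Nat.card_pos.ne'⟩
  have hss : Representation.IsSemisimpleRepresentation ρ := inferInstance
  have hnt : Nontrivial (Subrepresentation ρ) := by
    refine ⟨⟨⊥, ⊤, fun hbt => hne ?_⟩⟩
    have h1 : (⊥ : Submodule ℂ (Fin n → ℂ)) = ⊤ := congrArg Subrepresentation.toSubmodule hbt
    refine Representation.IntertwiningMap.ext ?_
    refine LinearMap.ext fun v => ?_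
    have hv : v ∈ (⊥ : Submodule ℂ (Fin n → ℂ)) := h1 ▸ Submodule.mem_top
    rw [(Submodule.mem_bot ℂ).mp hv, map_zero, map_zero]
  refine { toNontrivial := hnt, eq_bot_or_eq_top := fun W => ?_ }
  obtain ⟨W', hW'⟩ := hss.exists_isCompl W
  have hc : IsCompl W.toSubmodule W'.toSubmodule := by
    constructor
    · rw [disjoint_iff]
      have := congrArg Subrepresentation.toSubmodule (disjoint_iff.mp hW'.disjoint)
      exact this
    · rw [codisjoint_iff]
      have := congrArg Subrepresentation.toSubmodule (codisjoint_iff.mp hW'.codisjoint)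
      exact this
  have hint : ∀ (g : G) (v : Fin n → ℂ),
      W.toSubmodule.projection W'.toSubmodule hc (ρ g v) =
        ρ g (W.toSubmodule.projection W'.toSubmodule hc v) := by
    intro g v
    obtain ⟨a, ha, b, hb, rfl⟩ : ∃ a ∈ W.toSubmodule, ∃ b ∈ W'.toSubmodule, a + b = v :=
      Submodule.mem_sup.mp (hc.sup_eq_top ▸ Submodule.mem_top)
    have hga : ρ g a ∈ W.toSubmodule := W.apply_mem_toSubmodule g ha
    have hgb : ρ g b ∈ W'.toSubmodule := W'.apply_mem_toSubmodule g hb
    rw [map_add, map_add, map_add, Submodule.projection_apply_of_mem_left hc hga,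
      Submodule.projection_apply_of_mem_left hc ha,
      Submodule.projection_apply_of_mem_right hc hgb,
      Submodule.projection_apply_of_mem_right hc hb, add_zero, add_zero]
  obtain ⟨c, hcc⟩ := hsc (LinearMap.intertwiningMap_of_isIntertwiningMap ρ ρ
    (W.toSubmodule.projection W'.toSubmodule hc) hint)
  have hcv : ∀ v, c • v = W.toSubmodule.projection W'.toSubmodule hc v := by
    intro v
    exact congrArg (fun f : Representation.IntertwiningMap ρ ρ => f.toLinearMap v) hcc
  by_cases hW : W.toSubmodule = ⊥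
  · left
    exact Subrepresentation.toSubmodule_injective hW
  · right
    obtain ⟨w, hw, hw0⟩ := Submodule.exists_mem_ne_zero_of_ne_bot hW
    have h1 := hcv w
    rw [Submodule.projection_apply_of_mem_left hc hw] at h1
    have hc1 : c = 1 := by
      have h5 : (c - 1) • w = 0 := by rw [sub_smul, one_smul, h1, sub_self]
      rcases smul_eq_zero.mp h5 with h | h
      · exact sub_eq_zero.mp h
      · exact absurd h hw0
    apply Subrepresentation.toSubmodule_injective
    refine Submodule.eq_top_iff'.mpr fun v => ?_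
    have h2 := hcv v
    rw [hc1, one_smul] at h2
    rw [h2]
    exact Submodule.projection_apply_mem hc v

end

theorem inner_eq {G : Type} [Group G] [Fintype G] {n m : ℕ} (ρ : Representation ℂ G (Fin n → ℂ))
    (σ : Representation ℂ G (Fin m → ℂ)) :
    ∑ g, σ.character g * conj (ρ.character g) =
      (Module.finrank ℂ (Representation.IntertwiningMap ρ σ) : ℂ) * (Nat.card G : ℂ) := by
  have hne : (Nat.card G : ℂ) ≠ 0 := by exact_mod_cast Nat.card_pos.ne'
  have : Invertible (Nat.card G : ℂ) := invertibleOfNonzero hne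
  have h := Representation.card_inv_mul_sum_char_mul_char_eq_finrank ρ σ
  simp only [conj_character]
  rw [← h, mul_comm (Nat.card G : ℂ)⁻¹, mul_assoc, inv_mul_cancel₀ hne, mul_one]

theorem irr_pos {G : Type} [Group G] {n : ℕ} (ρ : Representation ℂ G (Fin n → ℂ))
    (h : ρ.IsIrreducible) : 0 < n := by
  rcases Nat.eq_zero_or_pos n with h0 | h0
  · subst h0
    exfalso
    have hnt := h.toNontrivial
    obtain ⟨a, b, hab⟩ := hnt
    apply hab
    apply Subrepresentation.toSubmodule_injective
    exact Subsingleton.elim _ _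
  · exact h0

theorem t_A3 : T_A3 := by
  intro G _ _
  refine ⟨?_, ?_, ?_, ?_⟩
  · rintro χ ⟨n, ρ, hρ, rfl⟩
    refine ⟨⟨n, ρ, rfl⟩, n, irr_pos ρ hρ, ?_⟩
    rw [Representation.char_one]
    simp
  · rintro f ⟨n, ρ, rfl⟩
    refine ⟨fun g x => Representation.char_conj ρ x g, conj_character ρ, isIntegral_character ρ,
      n, ?_⟩
    rw [Representation.char_one]
    simp
  · rintro f ⟨n, σ, rfl⟩ χ ⟨m, ρ, hρ, rfl⟩
    exact ⟨_, inner_eq ρ σ⟩
  · rintro f ⟨n, ρ, rfl⟩ hnorm
    refine ⟨n, ρ, finrank_eq_one_irreducible ρ ?_, rfl⟩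
    rw [inner_eq] at hnorm
    have hne : (Nat.card G : ℂ) ≠ 0 := by exact_mod_cast Nat.card_pos.ne'
    have h1 : (Module.finrank ℂ (Representation.IntertwiningMap ρ ρ) : ℂ) = 1 :=
      mul_right_cancel₀ hne (by rw [hnorm, one_mul])
    exact_mod_cast h1

theorem t_A1 : T_A1 := by
  rintro G _ _ χ χ' ⟨n, ρ, hρ, rfl⟩ ⟨m, σ, hσ, rfl⟩
  have hne : (Nat.card G : ℂ) ≠ 0 := by exact_mod_cast Nat.card_pos.ne'
  have : Invertible (Nat.card G : ℂ) := invertibleOfNonzero hne
  by_cases h : ρ.character = σ.character
  · rw [if_pos h]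
    have h1 := Representation.char_orthonormal ρ ρ
    rw [if_pos ⟨Representation.Equiv.refl ρ⟩] at h1
    rw [← h]
    simp only [conj_character]
    have h2 := congrArg (fun z => (Nat.card G : ℂ) * z) h1
    simp only [mul_one] at h2
    rwa [← mul_assoc, mul_inv_cancel₀ hne, one_mul] at h2
  · rw [if_neg h]
    have h1 := Representation.char_orthonormal ρ σ
    rw [if_neg] at h1
    · simp only [conj_character]
      have h2 := congrArg (fun z => (Nat.card G : ℂ) * z) h1
      simp only [mul_zero] at h2
      rwa [← mul_assoc, mul_inv_cancel₀ hne, one_mul] at h2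
    · rintro ⟨φ⟩
      exact h (Representation.char_iso φ).symm

end AMc
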