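import Pool.Agent.H3.AM.Targets

/-!
# A2: completeness of the irreducible characters
-/

open scoped Classical ComplexConjugate

namespace AMc

section

variable {G : Type} [Group G]

theorem exists_transport {V : Type} [AddCommGroup V] [Module ℂ V] [FiniteDimensional ℂ V]
    (ρ : Representation ℂ G V) : ∃ (ρ' : Representation ℂ G (Fin (Module.finrank ℂ V) → ℂ))
      (e : V ≃ₗ[ℂ] (Fin (Module.finrank ℂ V) → ℂ)), ∀ g v, e (ρ g v) = ρ' g (e v) := by
  let e : V ≃ₗ[ℂ] (Fin (Module.finrank ℂ V) → ℂ) := (Module.finBasis ℂ V).equivFun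
  let ρ' : Representation ℂ G (Fin (Module.finrank ℂ V) → ℂ) :=
    { toFun := fun g => e.toLinearMap ∘ₗ ρ g ∘ₗ e.symm.toLinearMap
      map_one' := by
        ext v; simp
      map_mul' := by
        intro a b
        refine LinearMap.ext fun v => ?_
        simp }
  refine ⟨ρ', e, fun g v => ?_⟩
  change e (ρ g v) = e (ρ g (e.symm (e v)))
  rw [LinearEquiv.symm_apply_apply]

variable [Fintype G]

theorem sum_op_eq_zero (h3 : T_A3) (f : G → ℂ) (hf : ∀ g x, f (g * x * g⁻¹) = f x)
    (horth : ∀ χ ∈ Irr G, ∑ g, f g * conj (χ g) = 0) :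
    ∀ (n : ℕ) (ρ : Representation ℂ G (Fin n → ℂ)) (v : Fin n → ℂ),
      ∑ g : G, f g • ρ g⁻¹ v = 0 := by
  have hne : (Nat.card G : ℂ) ≠ 0 := by exact_mod_cast Nat.card_pos.ne'
  have hnz : NeZero (Nat.card G : ℂ) := ⟨hne⟩
  intro n
  induction n using Nat.strong_induction_on with
  | _ n ih =>
  intro ρ
  have hsub : ∀ W : Subrepresentation ρ, W.toSubmodule ≠ ⊤ → ∀ w ∈ W.toSubmodule,
      ∑ g : G, f g • ρ g⁻¹ w = 0 := by
    intro W hW w hw
    obtain ⟨ρ', e, he⟩ := exists_transport W.toRepresentation
    have hlt : Module.finrank ℂ W.toSubmodule < n := by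
      have := Submodule.finrank_lt hW
      simpa using this
    have h1 := ih _ hlt ρ' (e ⟨w, hw⟩)
    have h2 : e (∑ g : G, f g • W.toRepresentation g⁻¹ ⟨w, hw⟩) = 0 := by
      rw [map_sum, ← h1]
      refine Finset.sum_congr rfl fun g _ => ?_
      rw [map_smul, he]
    have h4 : (∑ g : G, f g • W.toRepresentation g⁻¹ ⟨w, hw⟩) = 0 := by
      have := congrArg e.symm h2
      rwa [LinearEquiv.symm_apply_apply, map_zero] at this
    have h5 := congrArg (fun x : W.toSubmodule => (x : Fin n → ℂ)) h4
    simp only [Submodule.coe_sum, Submodule.coe_smul, Submodule.coe_zero] at h5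
    exact h5
  by_cases hirr : ρ.IsIrreducible
  · -- the operator is an intertwining map
    have hnpos : n ≠ 0 := by
      rintro rfl
      obtain ⟨a, b, hab⟩ := hirr.toNontrivial
      exact hab (Subrepresentation.toSubmodule_injective (Subsingleton.elim _ _))
    let T : (Fin n → ℂ) →ₗ[ℂ] (Fin n → ℂ) := ∑ g : G, f g • ρ g⁻¹
    have hTapp : ∀ v, T v = ∑ g : G, f g • ρ g⁻¹ v := by
      intro v; simp [T, LinearMap.sum_apply]
    have hint : ∀ (x : G) (v : Fin n → ℂ), T (ρ x v) = ρ x (T v) := by
      intro x v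
      rw [hTapp, hTapp, map_sum, ← Equiv.sum_comp (MulAut.conj x).toEquiv
        (fun g => f g • ρ g⁻¹ (ρ x v))]
      refine Finset.sum_congr rfl fun g _ => ?_
      have h1 : (MulAut.conj x).toEquiv g = x * g * x⁻¹ := by simp [MulAut.conj_apply]
      rw [h1, hf, map_smul]
      congr 1
      rw [← Module.End.mul_apply, ← Module.End.mul_apply, ← map_mul, ← map_mul]
      congr 2
      group
    obtain ⟨c, hc⟩ := (Representation.IsIrreducible.algebraMap_intertwiningMap_bijective_of_isAlgClosed
      (k := ℂ) (ρ := ρ)).2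
      (LinearMap.intertwiningMap_of_isIntertwiningMap ρ ρ T hint)
    have hT : ∀ v, c • v = T v := by
      intro v
      exact congrArg (fun φ : Representation.IntertwiningMap ρ ρ => φ.toLinearMap v) hc
    have hT' : T = c • LinearMap.id := by
      refine LinearMap.ext fun v => ?_
      rw [← hT]; rfl
    have htr : LinearMap.trace ℂ _ T = 0 := by
      have h1 : LinearMap.trace ℂ _ T = ∑ g : G, f g * ρ.character g⁻¹ := by
        simp only [T, map_sum, map_smul, smul_eq_mul]
        rfl
      rw [h1, ← horth ρ.character ⟨n, ρ, hirr, rfl⟩]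
      refine Finset.sum_congr rfl fun g _ => ?_
      rw [((h3 G).2.1 ρ.character ⟨n, ρ, rfl⟩).2.1 g]
    have hc0 : c = 0 := by
      rw [hT', map_smul, LinearMap.trace_id] at htr
      rcases smul_eq_zero.mp htr with h | h
      · exact h
      · exfalso
        simp at h
        exact hnpos h
    intro v
    rw [← hTapp, ← hT, hc0, zero_smul]
  · by_cases hex : ∃ W : Subrepresentation ρ, W.toSubmodule ≠ ⊥ ∧ W.toSubmodule ≠ ⊤
    · obtain ⟨W, hW1, hW2⟩ := hex
      have hss : Representation.IsSemisimpleRepresentation ρ := inferInstance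
      obtain ⟨W', hW'⟩ := hss.exists_isCompl W
      have hc : IsCompl W.toSubmodule W'.toSubmodule := by
        constructor
        · rw [disjoint_iff]
          exact congrArg Subrepresentation.toSubmodule (disjoint_iff.mp hW'.disjoint)
        · rw [codisjoint_iff]
          exact congrArg Subrepresentation.toSubmodule (codisjoint_iff.mp hW'.codisjoint)
      have hW3 : W'.toSubmodule ≠ ⊤ := by
        intro h
        apply hW1
        have := hc.inf_eq_bot
        rwa [h, inf_top_eq] at this
      intro v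
      obtain ⟨a, ha, b, hb, rfl⟩ : ∃ a ∈ W.toSubmodule, ∃ b ∈ W'.toSubmodule, a + b = v :=
        Submodule.mem_sup.mp (hc.sup_eq_top ▸ Submodule.mem_top)
      simp only [map_add, smul_add, Finset.sum_add_distrib]
      rw [hsub W hW2 a ha, hsub W' hW3 b hb, add_zero]
    · push Not at hex
      intro v
      by_cases hbt : (⊥ : Submodule ℂ (Fin n → ℂ)) = ⊤
      · have hv : v ∈ (⊥ : Submodule ℂ (Fin n → ℂ)) := hbt ▸ Submodule.mem_top
        rw [(Submodule.mem_bot ℂ).mp hv]
        simp
      · exfalso
        apply hirr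
        refine { toNontrivial := ⟨⊥, ⊤, fun h => hbt (congrArg Subrepresentation.toSubmodule h)⟩,
                 eq_bot_or_eq_top := fun W => ?_ }
        by_cases hW : W.toSubmodule = ⊥
        · left; exact Subrepresentation.toSubmodule_injective hW
        · right; exact Subrepresentation.toSubmodule_injective (hex W hW)

/-- the left regular representation on functions -/
noncomputable def regRep (G : Type) [Group G] : Representation ℂ G (G → ℂ) where
  toFun g := LinearMap.funLeft ℂ ℂ (fun x => g⁻¹ * x)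
  map_one' := by
    refine LinearMap.ext fun v => ?_
    funext x
    simp [LinearMap.funLeft_apply]
  map_mul' a b := by
    refine LinearMap.ext fun v => ?_
    funext x
    simp [LinearMap.funLeft_apply, mul_assoc]

end

theorem t_A2 (h3 : T_A3) : T_A2 := by
  intro G _ _ f hf horth
  obtain ⟨ρ', e, he⟩ := exists_transport (regRep G)
  have h1 := sum_op_eq_zero h3 f hf horth _ ρ' (e (Pi.single 1 1))
  have h2 : e (∑ g : G, f g • regRep G g⁻¹ (Pi.single 1 1)) = 0 := by
    rw [map_sum, ← h1]
    refine Finset.sum_congr rfl fun g _ => ?_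
    rw [map_smul, he]
  have h4 : (∑ g : G, f g • regRep G g⁻¹ (Pi.single 1 1)) = 0 := by
    have := congrArg e.symm h2
    rwa [LinearEquiv.symm_apply_apply, map_zero] at this
  funext x
  have h5 := congrFun h4 x⁻¹
  rw [Finset.sum_apply, Finset.sum_eq_single x] at h5
  · have h6 : (f x • regRep G x⁻¹ (Pi.single 1 1) : G → ℂ) x⁻¹ = f x := by
      change f x * (Pi.single 1 1 : G → ℂ) (x⁻¹⁻¹ * x⁻¹) = f x
      rw [inv_inv, mul_inv_cancel, Pi.single_eq_same, mul_one]
    rw [h6] at h5
    exact h5
  · intro g _ hg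
    change f g * (Pi.single 1 1 : G → ℂ) (g⁻¹⁻¹ * x⁻¹) = 0
    rw [inv_inv, Pi.single_eq_of_ne, mul_zero]
    intro h
    exact hg (by rw [mul_inv_eq_one] at h; exact h)
  · intro h; exact absurd (Finset.mem_univ _) h

end AMc
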