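import Pool.Agent.H3.AM.Basic

/-!
# Alperin–McKay: the core of the reduction (wreath products)
-/

open scoped Classical ComplexConjugate

set_option linter.unusedSectionVars false

namespace AMc

theorem DefH_congr {Γ : Type} [Group Γ] [Fintype Γ] {F : Type} [Field F] {ℓ : ℕ}
    {N : Subgroup Γ} {h k : MonoidAlgebra F Γ → F} {D : Subgroup Γ}
    (hk : ∀ z ∈ ZA F N N, h z = k z) (hd : DefH ℓ N h D) : DefH ℓ N k D := by
  obtain ⟨h1, h2, ⟨x, hx, h3, h4, h5⟩, h6⟩ := hd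
  refine ⟨h1, h2, ⟨x, hx, ?_, h4, h5⟩, fun x hx hne => h6 x hx ?_⟩
  · rw [← hk _ (csum_cls_mem_self hx)]; exact h3
  · rw [hk _ (csum_cls_mem_self hx)]; exact hne

/-- all the hypotheses used by the core -/
structure Hyp : Prop where
  S1 : T_S1
  S8 : T_S8
  E1 : T_E1
  B0 : T_B0
  B1 : T_B1
  B3 : T_B3
  B4 : T_B4
  D2 : T_D2
  D5 : T_D5
  D5b : T_D5b
  D6 : T_D6
  D7 : T_D7
  FC : T_FC
  FJ : T_FJ
  GC : T_GC
  W1 : T_W1
  W3 : T_W3
  W4 : T_W4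
  W5 : T_W5
  W7 : T_W7
  W8 : T_W8
  W9 : T_W9

section core

variable {F : Type} [Field F] (π : integralClosure ℤ ℂ →+* F) (hπ : Function.Surjective π)
  (ℓ : ℕ) [Fact ℓ.Prime] [CharP F ℓ]
  {G X : Type} [Group G] [Group X] [Fintype G] [Fintype X] [Fintype (G ≀ᵣ X)]
  {Q : Type} [CommGroup Q] [Finite Q] (q : G →* Q) (D : Subgroup G) (α : Q →* ℂˣ)

/-- the tuple which is twisted at the coordinate `1` -/
noncomputable def tup (X : Type) [Group X] (χ : G → ℂ) : X → (G → ℂ) :=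
  fun x : X => if x = 1 then tw q α χ else χ

/-- the bound of `T_W8` -/
def bound (m k C v : ℕ) : ℕ := if v = 0 ∧ C < m then 0 else m ^ C * k ^ C * (max v 1) ^ m

/-- the standing facts at one level `L` (either `⊤` or the normaliser of `D`) -/
structure Level (s : G ≀ᵣ X →* Q) (L : Subgroup G) (χ : G → ℂ) : Prop where
  mem : χ ∈ IrrS L
  defc : DefH ℓ L (lam π χ) D
  prmem : pr (tup q α X χ) ∈ IrrS (base X L)
  prdef : DefH ℓ (base X L) (lam π (pr (tup q α X χ))) (base X D)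
  ni : NI π s (full X L) (base X L) (pr (tup q α X χ))
  quad : Quad s (full X L) (base X L)

variable (H : Hyp)
include H hπ

theorem mk_level (L : Subgroup G) (χ : G → ℂ) (hχ : χ ∈ IrrS L) (hdef : DefH ℓ L (lam π χ) D)
    (t : G) (r : ℕ) (ht : ∀ g, t * g = g * t) (htL : t ∈ L) (hr : (α (q t)) ^ r = 1)
    (hlr : ¬ ℓ ∣ r) (hα : α (q t) ≠ 1) (hX : 3 ≤ Nat.card X) (hχt : ∀ g, χ (t * g) = χ g) :
    Level π ℓ q D α (sQ X q) L χ := by
  have hmem : ∀ x, tup q α X χ x ∈ IrrS L := by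
    intro x; unfold tup; split_ifs
    · exact H.S8 G Q q α L χ hχ
    · exact hχ
  have hd : ∀ x, DefH ℓ L (lam π (tup q α X χ x)) D := by
    intro x; unfold tup; split_ifs
    · exact (H.W9 F π hπ ℓ G Q q α L D χ hχ).1 hdef
    · exact hdef
  refine ⟨hχ, hdef, (H.W1 G X L).1 _ hmem, H.W3 F π hπ ℓ G X L D _ hmem hd, ?_,
    (H.W5 G X Q q L D hX).1⟩
  exact H.W7 F π hπ ℓ G X Q q L α t r ht htL hr hlr hα hX χ hχ hχt

/-- the degree of the product character -/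
theorem pr_one (χ : G → ℂ) (d : ℕ) (hd : χ 1 = d) :
    pr (tup q α X χ) 1 = ((d ^ Nat.card X : ℕ) : ℂ) := by
  have : ∀ x : X, tup q α X χ x ((1 : G ≀ᵣ X).left x) = d := by
    intro x
    have h1 : (1 : G ≀ᵣ X).left x = 1 := rfl
    rw [h1]
    unfold tup; split_ifs
    · simp [tw, hd]
    · exact hd
  unfold pr
  rw [if_pos RegularWreathProduct.one_right, Finset.prod_congr rfl (fun x _ => this x), Finset.prod_const,
    Finset.card_univ, Nat.card_eq_fintype_card]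
  push_cast; rfl

/-- lower bound -/
theorem level_lower (L : Subgroup G) (χ : G → ℂ) (hX : 3 ≤ Nat.card X)
    (lv : Level π ℓ q D α (sQ X q) L χ) (h0 : χ ∈ K0H π ℓ L χ D) :
    ∃ χH ∈ IrrS (full X L ⊓ (sQ X q).ker),
      DefH ℓ (full X L ⊓ (sQ X q).ker) (lam π χH) (base X D ⊓ (sQ X q).ker) ∧
      (∀ z ∈ ZA F (base X L ⊓ (sQ X q).ker) (full X L), lam π χH z =
        lam π (pr (tup q α X χ)) z) ∧
      (K0H π ℓ L χ D).ncard ^ Nat.card X ≤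
        Nat.card Q * (K0H π ℓ (full X L ⊓ (sQ X q).ker) χH (base X D ⊓ (sQ X q).ker)).ncard := by
  have hmem : ∀ x, tup q α X χ x ∈ IrrS L := by
    intro x; unfold tup; split_ifs
    · exact H.S8 G Q q α L χ lv.mem
    · exact lv.mem
  have hd : ∀ x, DefH ℓ L (lam π (tup q α X χ x)) D := by
    intro x; unfold tup; split_ifs
    · exact (H.W9 F π hπ ℓ G Q q α L D χ lv.mem).1 lv.defc
    · exact lv.defc
  have hv : ∀ x, (K0H π ℓ L (tup q α X χ x) D).ncard = (K0H π ℓ L χ D).ncard := by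
    intro x; unfold tup; split_ifs
    · exact (H.W9 F π hπ ℓ G Q q α L D χ lv.mem).2.1
    · rfl
  have hK0 : pr (tup q α X χ) ∈ K0H π ℓ (base X L) (pr (tup q α X χ)) (base X D) := by
    obtain ⟨_, _, d, hd1, hd2⟩ := h0
    refine ⟨lv.prmem, fun z _ => rfl, d ^ Nat.card X, pr_one π hπ q α H χ d hd1, ?_⟩
    rw [(H.W5 G X Q q L D hX).2.2.2.1]
    rw [padicValNat.pow, padicValNat.pow, hd2]
  obtain ⟨χH, h1, h2, h3, h4⟩ := H.FC F π hπ ℓ (G ≀ᵣ X) Q (sQ X q) (full X L) (base X L)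
    (base X D) lv.quad _ lv.prmem lv.prdef lv.ni hK0
  refine ⟨χH, h1, h2, h3, ?_⟩
  rw [← (H.W8 F π hπ ℓ G X L D (tup q α X χ) _ _ 0 hmem hd hv le_rfl).1]
  exact h4

/-- upper bound -/
theorem level_upper (L : Subgroup G) (χ : G → ℂ) (k : ℕ) (hk : (IrrS L).ncard ≤ k)
    (lv : Level π ℓ q D α (sQ X q) L χ)
    (χH : G ≀ᵣ X → ℂ) (hχH : χH ∈ IrrS (full X L ⊓ (sQ X q).ker))
    (hag : ∀ z ∈ ZA F (base X L ⊓ (sQ X q).ker) (full X L), lam π χH z =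
        lam π (pr (tup q α X χ)) z) :
    (K0H π ℓ (full X L ⊓ (sQ X q).ker) χH (base X D ⊓ (sQ X q).ker)).ncard ≤
      Nat.card Q * bound (Nat.card X) k (Nat.card Q) (K0H π ℓ L χ D).ncard := by
  have hmem : ∀ x, tup q α X χ x ∈ IrrS L := by
    intro x; unfold tup; split_ifs
    · exact H.S8 G Q q α L χ lv.mem
    · exact lv.mem
  have hd : ∀ x, DefH ℓ L (lam π (tup q α X χ x)) D := by
    intro x; unfold tup; split_ifs
    · exact (H.W9 F π hπ ℓ G Q q α L D χ lv.mem).1 lv.defc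
    · exact lv.defc
  have hv : ∀ x, (K0H π ℓ L (tup q α X χ x) D).ncard = (K0H π ℓ L χ D).ncard := by
    intro x; unfold tup; split_ifs
    · exact (H.W9 F π hπ ℓ G Q q α L D χ lv.mem).2.1
    · rfl
  refine (H.GC F π hπ ℓ (G ≀ᵣ X) Q (sQ X q) (full X L) (base X L) (base X D) lv.quad
    lv.prdef.2.1 _ lv.prmem lv.ni χH hχH hag).trans ?_
  exact Nat.mul_le_mul_left _
    (H.W8 F π hπ ℓ G X L D (tup q α X χ) _ k (Nat.card Q) hmem hd hv hk).2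

/-- the core of the reduction -/
theorem core (hX : 3 ≤ Nat.card X) (k : ℕ) (χ ψ : G → ℂ)
    (hk : (IrrS (⊤ : Subgroup G)).ncard ≤ k)
    (hk' : (IrrS (Subgroup.normalizer (D : Set G))).ncard ≤ k)
    (lv : Level π ℓ q D α (sQ X q) ⊤ χ)
    (lv' : Level π ℓ q D α (sQ X q) (Subgroup.normalizer (D : Set G)) ψ)
    (hcorr : ∀ z ∈ ZA F (⊤ : Subgroup G) ⊤, lam π χ z = lam π ψ (br D z)) :
    (χ ∈ K0H π ℓ ⊤ χ D → ∃ χH ∈ IrrS (sQ X q).ker,
      ∃ ξ ∈ IrrS ((sQ X q).ker ⊓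
        Subgroup.normalizer ((base X D ⊓ (sQ X q).ker : Subgroup (G ≀ᵣ X)) : Set (G ≀ᵣ X))),
      DefH ℓ (sQ X q).ker (lam π χH) (base X D ⊓ (sQ X q).ker) ∧
      (∀ z ∈ ZA F (sQ X q).ker (sQ X q).ker,
        lam π χH z = lam π ξ (br (base X D ⊓ (sQ X q).ker) z)) ∧
      (K0H π ℓ ⊤ χ D).ncard ^ Nat.card X ≤
        Nat.card Q * (K0H π ℓ (sQ X q).ker χH (base X D ⊓ (sQ X q).ker)).ncard ∧
      (K0H π ℓ ((sQ X q).ker ⊓
          Subgroup.normalizer ((base X D ⊓ (sQ X q).ker : Subgroup (G ≀ᵣ X)) : Set (G ≀ᵣ X)))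
          ξ (base X D ⊓ (sQ X q).ker)).ncard ≤
        Nat.card Q * bound (Nat.card X) k (Nat.card Q)
          (K0H π ℓ (Subgroup.normalizer (D : Set G)) ψ D).ncard) ∧
    (ψ ∈ K0H π ℓ (Subgroup.normalizer (D : Set G)) ψ D → ∃ χH ∈ IrrS (sQ X q).ker,
      ∃ ξ ∈ IrrS ((sQ X q).ker ⊓
        Subgroup.normalizer ((base X D ⊓ (sQ X q).ker : Subgroup (G ≀ᵣ X)) : Set (G ≀ᵣ X))),
      DefH ℓ (sQ X q).ker (lam π χH) (base X D ⊓ (sQ X q).ker) ∧
      (∀ z ∈ ZA F (sQ X q).ker (sQ X q).ker,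
        lam π χH z = lam π ξ (br (base X D ⊓ (sQ X q).ker) z)) ∧
      (K0H π ℓ (Subgroup.normalizer (D : Set G)) ψ D).ncard ^ Nat.card X ≤
        Nat.card Q * (K0H π ℓ ((sQ X q).ker ⊓
          Subgroup.normalizer ((base X D ⊓ (sQ X q).ker : Subgroup (G ≀ᵣ X)) : Set (G ≀ᵣ X)))
          ξ (base X D ⊓ (sQ X q).ker)).ncard ∧
      (K0H π ℓ (sQ X q).ker χH (base X D ⊓ (sQ X q).ker)).ncard ≤
        Nat.card Q * bound (Nat.card X) k (Nat.card Q) (K0H π ℓ ⊤ χ D).ncard) := by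
  set s := sQ X q with hs
  set N := Subgroup.normalizer (D : Set G) with hN
  set P : Subgroup (G ≀ᵣ X) := base X D ⊓ s.ker with hP
  have hnP : Subgroup.normalizer (P : Set (G ≀ᵣ X)) = full X N := (H.W5 G X Q q ⊤ D hX).2.1
  have hfull : full X (⊤ : Subgroup G) = ⊤ := (H.W5 G X Q q ⊤ D hX).2.2.2.2.2
  have hbase : base X (⊤ : Subgroup G) ⊓ full X N = base X N := by
    have := ((H.W5 G X Q q ⊤ D hX).2.2.2.2.1 N).1
    rwa [top_inf_eq] at this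
  have hK' : (base X (⊤ : Subgroup G) ⊓ s.ker) ⊓ Subgroup.normalizer (P : Set (G ≀ᵣ X)) =
      base X N ⊓ s.ker := by
    rw [hnP, inf_assoc, inf_comm s.ker, ← inf_assoc, hbase]
  have hH' : s.ker ⊓ Subgroup.normalizer (P : Set (G ≀ᵣ X)) = full X N ⊓ s.ker := by
    rw [hnP, inf_comm]
  have hPp : IsPGroup ℓ P := lv.prdef.1.to_le inf_le_left
  have hPM : P ≤ base X ⊤ ⊓ s.ker := inf_le_inf_right _ lv.prdef.2.1
  have hPH : P ≤ s.ker := inf_le_right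
  -- Brauer correspondence of the base groups
  have hmem : ∀ x, tup q α X χ x ∈ IrrS (⊤ : Subgroup G) := by
    intro x; unfold tup; split_ifs
    · exact H.S8 G Q q α ⊤ χ lv.mem
    · exact lv.mem
  have hψ' : ψ ∈ IrrS (⊤ ⊓ N) := by rw [top_inf_eq]; exact lv'.mem
  have hmem' : ∀ x, tup q α X ψ x ∈ IrrS (⊤ ⊓ N) := by
    intro x; unfold tup; split_ifs
    · exact H.S8 G Q q α _ ψ hψ'
    · exact hψ'
  have hcx : ∀ x, ∀ z ∈ ZA F (⊤ : Subgroup G) ⊤,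
      lam π (tup q α X χ x) z = lam π (tup q α X ψ x) (br D z) := by
    intro x; unfold tup; split_ifs
    · exact (H.W9 F π hπ ℓ G Q q α ⊤ D χ lv.mem).2.2 ψ hψ' hcorr
    · exact hcorr
  have hbc : ∀ z ∈ ZA F (base X (⊤ : Subgroup G)) (base X ⊤),
      lam π (pr (tup q α X χ)) z = lam π (pr (tup q α X ψ)) (br (base X D) z) :=
    H.W4 F π hπ ℓ G X ⊤ D _ _ hmem hmem' hcx
  have hbrE : ∀ z ∈ ZA F (base X (⊤ : Subgroup G) ⊓ s.ker) (⊤ : Subgroup (G ≀ᵣ X)),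
      br P z = br (base X D) z := by
    intro z hz
    apply MonoidAlgebra.ext; ext w
    rw [coeff_br, coeff_br]
    by_cases hw : w ∈ base X (⊤ : Subgroup G) ⊓ s.ker
    · have h1 := (H.W5 G X Q q ⊤ D hX).2.2.1 w hw.1.1
      exact if_congr h1 rfl rfl
    · rw [hz.1 w hw]; simp
  -- agreement below the Brauer map
  have hbc2 : ∀ z ∈ ZA F (base X (⊤ : Subgroup G) ⊓ s.ker) (⊤ : Subgroup (G ≀ᵣ X)),
      lam π (pr (tup q α X χ)) z = lam π (pr (tup q α X ψ)) (br P z) := by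
    intro z hz
    rw [hbrE z hz]
    exact hbc z (ZA_mono inf_le_left le_top hz)
  -- landing of the Brauer map
  have hland : ∀ z ∈ ZA F (base X (⊤ : Subgroup G) ⊓ s.ker) (⊤ : Subgroup (G ≀ᵣ X)),
      br P z ∈ ZA F (base X N ⊓ s.ker) (full X N) := by
    intro z hz
    have := H.D2 F (G ≀ᵣ X) _ _ P z hz
    rwa [hK', top_inf_eq, hnP] at this
  have hq := lv.quad
  have hq' := lv'.quad
  rw [hfull] at hq
  constructor
  · intro h0
    obtain ⟨χH, h1, h2, h3, h4⟩ := level_lower π hπ ℓ q D α H ⊤ χ hX lv h0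
    rw [hfull, top_inf_eq] at h1 h2 h4
    rw [hfull] at h3
    have : IsAlgClosed F := (H.B0 F π hπ).1
    obtain ⟨k0, hk1, hk2⟩ := H.D7 F ℓ (G ≀ᵣ X) s.ker P (lam π χH) (H.B1 F π hπ _ _ _ h1) h2
    obtain ⟨ξ, hξ, hξk⟩ := H.B3 F π hπ ℓ (G ≀ᵣ X) _ k0 hk1
    have hD2H : ∀ z ∈ ZA F s.ker s.ker, br P z ∈
        ZA F (s.ker ⊓ Subgroup.normalizer (P : Set (G ≀ᵣ X)))
          (s.ker ⊓ Subgroup.normalizer (P : Set (G ≀ᵣ X))) := fun z hz =>
      H.D2 F (G ≀ᵣ X) _ _ P z hz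
    have hcor : ∀ z ∈ ZA F s.ker s.ker, lam π χH z = lam π ξ (br P z) := by
      intro z hz
      rw [hk2 z hz, hξk _ (hD2H z hz)]
    refine ⟨χH, h1, ξ, hξ, h2, hcor, h4, ?_⟩
    -- the two characters of `K'`
    have hK'M' : base X N ⊓ s.ker ≤ base X N := inf_le_left
    have hK'H' : base X N ⊓ s.ker ≤ full X N ⊓ s.ker := inf_le_inf_right _ hq'.le
    have hnor1 : ∀ u ∈ base X N, ∀ g ∈ base X N ⊓ s.ker, u * g * u⁻¹ ∈ base X N ⊓ s.ker := by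
      intro u hu g hg
      exact ⟨nor_self _ u hu g hg.1, 
        MonoidHom.mem_ker.2 (by rw [s_conj]; exact MonoidHom.mem_ker.1 hg.2)⟩
    have hnor2 : ∀ u ∈ full X N, ∀ g ∈ base X N ⊓ s.ker, u * g * u⁻¹ ∈ base X N ⊓ s.ker := by
      intro u hu g hg
      exact ⟨hq'.nor u hu g hg.1, 
        MonoidHom.mem_ker.2 (by rw [s_conj]; exact MonoidHom.mem_ker.1 hg.2)⟩
    rw [hH'] at hξ
    obtain ⟨θ1, hθ1, ho1⟩ := H.E1 (G ≀ᵣ X) (base X N ⊓ s.ker) (base X N) hK'M' _ lv'.prmem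
    obtain ⟨θ2, hθ2, ho2⟩ := H.E1 (G ≀ᵣ X) (base X N ⊓ s.ker) (full X N ⊓ s.ker) hK'H' _ hξ
    have e1 : ∀ z ∈ ZA F (base X N ⊓ s.ker) (full X N),
        lam π (pr (tup q α X ψ)) z = lam π θ1 z := fun z hz =>
      H.B4 F π hπ (G ≀ᵣ X) _ _ hK'M' hnor1 _ lv'.prmem _ hθ1 ho1 z (ZA_mono le_rfl hq'.le hz)
    have e2 : ∀ z ∈ ZA F (base X N ⊓ s.ker) (full X N), lam π ξ z = lam π θ2 z := fun z hz =>
      H.B4 F π hπ (G ≀ᵣ X) _ _ hK'H' (fun u hu g hg => hnor2 u hu.1 g hg) _ hξ _ hθ2 ho2 z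
        (ZA_mono le_rfl inf_le_left hz)
    -- D6
    have hnorK : ∀ u ∈ (⊤ : Subgroup (G ≀ᵣ X)), ∀ g ∈ base X (⊤ : Subgroup G) ⊓ s.ker,
        u * g * u⁻¹ ∈ base X (⊤ : Subgroup G) ⊓ s.ker := by
      intro u hu g hg
      exact ⟨hq.nor u hu g hg.1, 
        MonoidHom.mem_ker.2 (by rw [s_conj]; exact MonoidHom.mem_ker.1 hg.2)⟩
    have hag : ∀ z ∈ ZA F (base X N ⊓ s.ker) (full X N), lam π θ1 z = lam π θ2 z := by
      have := H.D6 F ℓ (G ≀ᵣ X) (base X ⊤ ⊓ s.ker) ⊤ P le_top hnorK hPp hPM (lam π θ1)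
        (lam π θ2) (by rw [hK']; exact H.B1 F π hπ _ _ _ hθ1)
        (by rw [hK']; exact H.B1 F π hπ _ _ _ hθ2) ?_ ?_
      · rw [hK', top_inf_eq, hnP] at this
        exact this
      · intro z hz
        rw [← e1 _ (hland z hz), ← e2 _ (hland z hz), ← hbc2 z hz,
          ← hcor z (ZA_mono inf_le_right le_top hz), h3 z hz]
      · obtain ⟨z, hz, hz1, hz2⟩ := H.FJ F π hπ ℓ (G ≀ᵣ X) Q s ⊤ (base X ⊤) (base X D) hq _
          lv.prmem lv.prdef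
        refine ⟨z, hz, hz1, ?_⟩
        rw [← e1 _ (hland z hz), ← hbc2 z hz]
        exact hz2
    rw [hH']
    refine level_upper π hπ ℓ q D α H N ψ k hk' lv' ξ hξ ?_
    intro z hz
    rw [e2 z hz, e1 z hz, hag z hz]
  · intro h0
    obtain ⟨ξ, h1, h2, h3, h4⟩ := level_lower π hπ ℓ q D α H N ψ hX lv' h0
    rw [← hH'] at h1 h2 h4
    have hD5 := H.D5 F ℓ (G ≀ᵣ X) s.ker P hPp hPH (lam π ξ) (H.B1 F π hπ _ _ _ h1) h2
    obtain ⟨χH, hχH, hχk⟩ := H.B3 F π hπ ℓ (G ≀ᵣ X) _ _ hD5.1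
    refine ⟨χH, hχH, ξ, h1, DefH_congr hχk hD5.2, fun z hz => (hχk z hz).symm, h4, ?_⟩
    have hχH' : χH ∈ IrrS (full X (⊤ : Subgroup G) ⊓ s.ker) := by
      rw [hfull, top_inf_eq]; exact hχH
    have := level_upper π hπ ℓ q D α H ⊤ χ k hk lv χH hχH' ?_
    · rw [hfull, top_inf_eq] at this
      exact this
    · intro z hz
      rw [hfull] at hz
      rw [← hχk z (ZA_mono inf_le_right le_top hz), hbc2 z hz]
      exact h3 _ (hland z hz)

end core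

end AMc
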