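import Pool.Agent.H3.AM.Targets2

/-!
# Toolkit for the Alperin–McKay reduction
-/

open scoped Classical ComplexConjugate

set_option linter.unusedSectionVars false

namespace AMc

/-! ## The reduction map `rd` -/
section rd

variable {F : Type} [Field F] (π : integralClosure ℤ ℂ →+* F)

theorem rd_coe (a : integralClosure ℤ ℂ) : rd π (a : ℂ) = π a := by
  unfold rd
  rw [dif_pos (show IsIntegral ℤ (a : ℂ) from a.2)]

theorem rd_mk {a : ℂ} (ha : IsIntegral ℤ a) : rd π a = π ⟨a, ha⟩ := by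
  unfold rd
  rw [dif_pos ha]

theorem rd_zero : rd π 0 = 0 := by
  have := rd_coe π 0
  simpa using this

theorem rd_one : rd π 1 = 1 := by
  have := rd_coe π 1
  simpa using this

theorem rd_add {a b : ℂ} (ha : IsIntegral ℤ a) (hb : IsIntegral ℤ b) :
    rd π (a + b) = rd π a + rd π b := by
  rw [rd_mk π ha, rd_mk π hb, rd_mk π (ha.add hb), ← map_add]
  rfl

theorem rd_neg {a : ℂ} (ha : IsIntegral ℤ a) : rd π (-a) = - rd π a := by
  rw [rd_mk π ha, rd_mk π ha.neg, ← map_neg]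
  rfl

theorem rd_sub {a b : ℂ} (ha : IsIntegral ℤ a) (hb : IsIntegral ℤ b) :
    rd π (a - b) = rd π a - rd π b := by
  rw [rd_mk π ha, rd_mk π hb, rd_mk π (ha.sub hb), ← map_sub]
  rfl

theorem rd_mul {a b : ℂ} (ha : IsIntegral ℤ a) (hb : IsIntegral ℤ b) :
    rd π (a * b) = rd π a * rd π b := by
  rw [rd_mk π ha, rd_mk π hb, rd_mk π (ha.mul hb), ← map_mul]
  rfl

theorem rd_pow {a : ℂ} (ha : IsIntegral ℤ a) (n : ℕ) : rd π (a ^ n) = rd π a ^ n := by
  rw [rd_mk π ha, rd_mk π (ha.pow n), ← map_pow]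
  rfl

theorem rd_natCast (n : ℕ) : rd π (n : ℂ) = n := by
  have := rd_coe π (n : integralClosure ℤ ℂ)
  simpa using this

theorem isIntegral_natCast (n : ℕ) : IsIntegral ℤ (n : ℂ) := by
  have := isIntegral_algebraMap (R := ℤ) (A := ℂ) (x := (n : ℤ))
  simpa using this

theorem rd_sum {ι : Type*} (s : Finset ι) (f : ι → ℂ) (hf : ∀ i ∈ s, IsIntegral ℤ (f i)) :
    IsIntegral ℤ (∑ i ∈ s, f i) ∧ rd π (∑ i ∈ s, f i) = ∑ i ∈ s, rd π (f i) := by
  induction s using Finset.induction_on with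
  | empty => simp only [Finset.sum_empty]; exact ⟨isIntegral_zero, rd_zero π⟩
  | insert a s ha ih =>
    have h1 := ih (fun i hi => hf i (Finset.mem_insert_of_mem hi))
    have h2 := hf a (Finset.mem_insert_self a s)
    rw [Finset.sum_insert ha, Finset.sum_insert ha, ← h1.2]
    exact ⟨h2.add h1.1, rd_add π h2 h1.1⟩

theorem rd_prod {ι : Type*} (s : Finset ι) (f : ι → ℂ) (hf : ∀ i ∈ s, IsIntegral ℤ (f i)) :
    IsIntegral ℤ (∏ i ∈ s, f i) ∧ rd π (∏ i ∈ s, f i) = ∏ i ∈ s, rd π (f i) := by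
  induction s using Finset.induction_on with
  | empty => simp only [Finset.prod_empty]; exact ⟨isIntegral_one, rd_one π⟩
  | insert a s ha ih =>
    have h1 := ih (fun i hi => hf i (Finset.mem_insert_of_mem hi))
    have h2 := hf a (Finset.mem_insert_self a s)
    rw [Finset.prod_insert ha, Finset.prod_insert ha, ← h1.2]
    exact ⟨h2.mul h1.1, rd_mul π h2 h1.1⟩

theorem cong_iff {a b : ℂ} (ha : IsIntegral ℤ a) (hb : IsIntegral ℤ b) :
    Cong (RingHom.ker π) a b ↔ rd π a = rd π b := by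
  rw [← sub_eq_zero, ← rd_sub π ha hb]
  constructor
  · rintro ⟨c, hc, h⟩
    rw [← h, rd_coe]
    exact hc
  · intro h
    refine ⟨⟨a - b, ha.sub hb⟩, ?_, rfl⟩
    rw [RingHom.mem_ker, ← rd_mk]
    exact h

theorem cong_zero_iff {a : ℂ} (ha : IsIntegral ℤ a) :
    Cong (RingHom.ker π) a 0 ↔ rd π a = 0 := by
  rw [cong_iff π ha isIntegral_zero, rd_zero]

theorem isIntegral_of_pow_eq_one {ζ : ℂ} {r : ℕ} (hr : 0 < r) (h : ζ ^ r = 1) :
    IsIntegral ℤ ζ := by
  refine ⟨Polynomial.X ^ r - 1, Polynomial.monic_X_pow_sub_C 1 hr.ne', ?_⟩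
  simp [h]

theorem rd_ne_zero_of_pow_eq_one {ζ : ℂ} {r : ℕ} (hr : 0 < r) (h : ζ ^ r = 1) :
    rd π ζ ≠ 0 := by
  intro h0
  have := rd_pow π (isIntegral_of_pow_eq_one hr h) r
  rw [h, rd_one, h0, zero_pow hr.ne'] at this
  exact one_ne_zero this

variable {Γ : Type} [Group Γ] {Q : Type} [CommGroup Q] [Finite Q]

theorem mu_pow (μ : Q →* ℂˣ) (q : Q) : (μ q : ℂ) ^ (Nat.card Q) = 1 := by
  rw [← Units.val_pow_eq_pow_val, ← map_pow, pow_card_eq_one', map_one, Units.val_one]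

theorem mu_integral (μ : Q →* ℂˣ) (q : Q) : IsIntegral ℤ (μ q : ℂ) :=
  isIntegral_of_pow_eq_one Nat.card_pos (mu_pow μ q)

theorem rd_mu_ne_zero (μ : Q →* ℂˣ) (q : Q) : rd π (μ q : ℂ) ≠ 0 :=
  rd_ne_zero_of_pow_eq_one π Nat.card_pos (mu_pow μ q)

theorem rd_mu_mul (μ : Q →* ℂˣ) (q q' : Q) :
    rd π (μ (q * q') : ℂ) = rd π (μ q : ℂ) * rd π (μ q' : ℂ) := by
  rw [map_mul, Units.val_mul, rd_mul π (mu_integral μ q) (mu_integral μ q')]

end rd

/-! ## Orbits -/
section cls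

variable {Γ : Type} [Group Γ] [Fintype Γ]

theorem mem_cls {U : Subgroup Γ} {x y : Γ} : y ∈ cls U x ↔ ∃ u ∈ U, y = u * x * u⁻¹ := by
  simp [cls]

theorem self_mem_cls (U : Subgroup Γ) (x : Γ) : x ∈ cls U x :=
  mem_cls.2 ⟨1, U.one_mem, by simp⟩

theorem cls_conj {U : Subgroup Γ} {x g u : Γ} (hu : u ∈ U) :
    u * g * u⁻¹ ∈ cls U x ↔ g ∈ cls U x := by
  rw [mem_cls, mem_cls]
  constructor
  · rintro ⟨v, hv, h⟩
    refine ⟨u⁻¹ * v, U.mul_mem (U.inv_mem hu) hv, ?_⟩
    have : g = u⁻¹ * (u * g * u⁻¹) * u := by group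
    rw [this, h]; group
  · rintro ⟨v, hv, h⟩
    exact ⟨u * v, U.mul_mem hu hv, by rw [h]; group⟩

theorem cls_subset {N U : Subgroup Γ} (hn : ∀ u ∈ U, ∀ g ∈ N, u * g * u⁻¹ ∈ N) {x : Γ}
    (hx : x ∈ N) : ∀ g ∈ cls U x, g ∈ N := by
  intro g hg
  obtain ⟨u, hu, rfl⟩ := mem_cls.1 hg
  exact hn u hu x hx

theorem cls_subset_self {U : Subgroup Γ} {x : Γ} (hx : x ∈ U) : ∀ g ∈ cls U x, g ∈ U :=
  cls_subset (fun u hu _ hg => U.mul_mem (U.mul_mem hu hg) (U.inv_mem hu)) hx

theorem cls_eq_of_mem {U : Subgroup Γ} {x y : Γ} (h : y ∈ cls U x) : cls U y = cls U x := by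
  obtain ⟨u, hu, rfl⟩ := mem_cls.1 h
  ext g
  rw [mem_cls, mem_cls]
  constructor
  · rintro ⟨v, hv, rfl⟩
    exact ⟨v * u, U.mul_mem hv hu, by group⟩
  · rintro ⟨v, hv, rfl⟩
    exact ⟨v * u⁻¹, U.mul_mem hv (U.inv_mem hu), by group⟩

/-- the size of a class -/
theorem card_cls (U : Subgroup Γ) (x : Γ) :
    (cls U x).card = (Subgroup.centralizer {x} ⊓ U).relIndex U := by
  have h1 : (Subgroup.centralizer {x} ⊓ U).relIndex U =
      ((Subgroup.centralizer {x} ⊓ U).subgroupOf U).index := rfl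
  rw [h1, Subgroup.index, Nat.card_eq_fintype_card, ← Fintype.card_coe]
  symm
  refine Fintype.card_congr (Equiv.ofBijective
    (Quotient.lift (fun u : U => (⟨(u : Γ) * x * (u : Γ)⁻¹, mem_cls.2 ⟨u, u.2, rfl⟩⟩ : cls U x))
      ?_) ⟨?_, ?_⟩)
  · intro a b hab
    rw [← Quotient.eq_iff_equiv, QuotientGroup.eq] at hab
    have h2 : (a : Γ)⁻¹ * b ∈ Subgroup.centralizer {x} := by
      have := (Subgroup.mem_subgroupOf.1 hab).1
      simpa using this
    rw [Subgroup.mem_centralizer_singleton_iff] at h2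
    apply Subtype.ext
    show (a : Γ) * x * (a : Γ)⁻¹ = (b : Γ) * x * (b : Γ)⁻¹
    have h3 : (a : Γ) * x * (a : Γ)⁻¹ = a * (x * ((a : Γ)⁻¹ * b)) * (b : Γ)⁻¹ := by group
    rw [h3, ← h2]; group
  · intro a b
    induction a using Quotient.inductionOn with | h a => ?_
    induction b using Quotient.inductionOn with | h b => ?_
    intro hab
    have h2 : (a : Γ) * x * (a : Γ)⁻¹ = (b : Γ) * x * (b : Γ)⁻¹ := congrArg Subtype.val hab
    apply Quotient.sound
    rw [← Quotient.eq_iff_equiv, QuotientGroup.eq]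
    rw [Subgroup.mem_subgroupOf]
    refine ⟨?_, by simpa using U.mul_mem (U.inv_mem a.2) b.2⟩
    show ((a⁻¹ * b : U) : Γ) ∈ Subgroup.centralizer {x}
    rw [Subgroup.mem_centralizer_singleton_iff]
    have h3 : x = (a : Γ)⁻¹ * ((b : Γ) * x * (b : Γ)⁻¹) * a := by rw [← h2]; group
    push_cast
    calc (a : Γ)⁻¹ * b * x = ((a : Γ)⁻¹ * ((b : Γ) * x * (b : Γ)⁻¹) * a) * ((a : Γ)⁻¹ * b) := by
          group
      _ = x * ((a : Γ)⁻¹ * b) := by rw [← h3]
  · rintro ⟨y, hy⟩
    obtain ⟨u, hu, rfl⟩ := mem_cls.1 hy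
    exact ⟨Quotient.mk _ ⟨u, hu⟩, rfl⟩

end cls

/-! ## The algebras `ZA` -/
section ZA

variable {Γ : Type} [Group Γ] [Fintype Γ] {R : Type} [CommRing R]

theorem ZA_mono {N N' U U' : Subgroup Γ} (h : N ≤ N') (h' : U' ≤ U) {z : MonoidAlgebra R Γ}
    (hz : z ∈ ZA R N U) : z ∈ ZA R N' U' :=
  ⟨fun g hg => hz.1 g (fun h2 => hg (h h2)), fun u hu g => hz.2 u (h' hu) g⟩

/-- elements supported on `N` commute with `N`-invariant elements -/
theorem ZA_comm {N N' U' : Subgroup Γ} {z w : MonoidAlgebra R Γ}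
    (hz : ∀ g, g ∉ N → z.coeff g = 0) (hw : w ∈ ZA R N' U') (h : N ≤ U') : z * w = w * z := by
  apply MonoidAlgebra.ext
  ext g
  rw [coeff_mul_group, coeff_mul_group]
  have h1 : ∀ a, z.coeff a * w.coeff (a⁻¹ * g) = w.coeff (g * a⁻¹) * z.coeff a := by
    intro a
    by_cases ha : a ∈ N
    · rw [mul_comm]
      congr 1
      have := hw.2 a (h ha) (a⁻¹ * g)
      rw [← this]; congr 1; group
    · rw [hz a ha]; ring
  rw [Finset.sum_congr rfl (fun a _ => h1 a)]
  refine Fintype.sum_equiv ((Equiv.inv Γ).trans (Equiv.mulLeft g)) _ _ (fun a => ?_)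
  simp only [Equiv.trans_apply, Equiv.inv_apply, Equiv.coe_mulLeft]
  congr 2
  group

theorem ZA_mul_comm {N U : Subgroup Γ} (h : N ≤ U) {z w : MonoidAlgebra R Γ}
    (hz : z ∈ ZA R N U) (hw : w ∈ ZA R N U) : z * w = w * z :=
  ZA_comm hz.1 hw h

noncomputable instance instCommRingZA (N : Subgroup Γ) : CommRing (ZA R N N) :=
  { (ZA R N N).toRing with
    mul_comm := fun a b => Subtype.ext (ZA_mul_comm le_rfl a.2 b.2) }

end ZA

section ZAF

variable {Γ : Type} [Group Γ] [Fintype Γ] {F : Type} [Field F]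

theorem coeff_csum (S : Finset Γ) (g : Γ) :
    (csum F S).coeff g = if g ∈ S then 1 else 0 := by
  unfold csum
  rw [MonoidAlgebra.coeff_sum, Finsupp.finsetSum_apply]
  simp only [MonoidAlgebra.coeff_single, Finsupp.single_apply]
  simp

theorem csum_mem {N U : Subgroup Γ} {S : Finset Γ} (hS : ∀ g ∈ S, g ∈ N)
    (hS' : ∀ u ∈ U, ∀ g ∈ S, u * g * u⁻¹ ∈ S) : csum F S ∈ ZA F N U := by
  refine ⟨fun g hg => ?_, fun u hu g => ?_⟩
  · rw [coeff_csum, if_neg (fun h => hg (hS g h))]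
  · rw [coeff_csum, coeff_csum]
    have : u * g * u⁻¹ ∈ S ↔ g ∈ S := by
      constructor
      · intro h
        have h2 := hS' u⁻¹ (U.inv_mem hu) _ h
        have h3 : u⁻¹ * (u * g * u⁻¹) * u⁻¹⁻¹ = g := by group
        rwa [h3] at h2
      · exact hS' u hu g
    simp only [this]

theorem csum_cls_mem {N U : Subgroup Γ} (hn : ∀ u ∈ U, ∀ g ∈ N, u * g * u⁻¹ ∈ N) {x : Γ}
    (hx : x ∈ N) : csum F (cls U x) ∈ ZA F N U :=
  csum_mem (cls_subset hn hx) (fun _ hu _ hg => (cls_conj hu).2 hg)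

theorem csum_cls_mem_self {U : Subgroup Γ} {x : Γ} (hx : x ∈ U) :
    csum F (cls U x) ∈ ZA F U U :=
  csum_cls_mem (fun _ hu _ hg => U.mul_mem (U.mul_mem hu hg) (U.inv_mem hu)) hx

theorem csum_one : csum F ({1} : Finset Γ) = 1 := by
  unfold csum
  simp [MonoidAlgebra.one_def]

theorem csum_union {S T : Finset Γ} (h : Disjoint S T) :
    csum F (S ∪ T) = csum F S + csum F T := by
  unfold csum
  exact Finset.sum_union h

/-- induction principle: expansion in class sums -/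
theorem ZA_induction {N U : Subgroup Γ} (hn : ∀ u ∈ U, ∀ g ∈ N, u * g * u⁻¹ ∈ N)
    {P : MonoidAlgebra F Γ → Prop} (h0 : P 0)
    (hadd : ∀ z w, z ∈ ZA F N U → w ∈ ZA F N U → P z → P w → P (z + w))
    (hsmul : ∀ (c : F) z, z ∈ ZA F N U → P z → P (c • z))
    (hc : ∀ x ∈ N, P (csum F (cls U x))) : ∀ z ∈ ZA F N U, P z := by
  have key : ∀ n : ℕ, ∀ z ∈ ZA F N U, z.coeff.support.card ≤ n → P z := by
    intro n
    induction n with
    | zero =>
      intro z _ hcard
      have : z.coeff = 0 := by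
        rwa [Nat.le_zero, Finset.card_eq_zero, Finsupp.support_eq_empty] at hcard
      have hz0 : z = 0 := MonoidAlgebra.coeff_eq_zero.1 this
      rw [hz0]; exact h0
    | succ n ih =>
      intro z hz hcard
      by_cases hz0 : z = 0
      · rw [hz0]; exact h0
      obtain ⟨x, hx⟩ : ∃ x, z.coeff x ≠ 0 := by
        by_contra hcon
        push Not at hcon
        apply hz0
        apply MonoidAlgebra.coeff_eq_zero.1
        ext g; exact hcon g
      have hxN : x ∈ N := by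
        by_contra h; exact hx (hz.1 x h)
      have hcs : csum F (cls U x) ∈ ZA F N U := csum_cls_mem hn hxN
      set c := z.coeff x with hcdef
      have hw : z - c • csum F (cls U x) ∈ ZA F N U :=
        (ZA F N U).sub_mem hz ((ZA F N U).smul_mem hcs c)
      have hwc : ∀ g, (z - c • csum F (cls U x)).coeff g =
          z.coeff g - if g ∈ cls U x then c else 0 := by
        intro g
        rw [MonoidAlgebra.coeff_sub, Finsupp.sub_apply, MonoidAlgebra.coeff_smul,
          Finsupp.smul_apply, coeff_csum]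
        split_ifs <;> simp
      have hcls : ∀ g ∈ cls U x, z.coeff g = c := by
        intro g hg
        obtain ⟨u, hu, rfl⟩ := mem_cls.1 hg
        exact hz.2 u hu x
      have hPw : P (z - c • csum F (cls U x)) := by
        apply ih _ hw
        have hlt : (z - c • csum F (cls U x)).coeff.support.card < z.coeff.support.card := by
          apply Finset.card_lt_card
          refine ⟨fun g hg => ?_, fun h => ?_⟩
          · rw [Finsupp.mem_support_iff, hwc] at hg
            rw [Finsupp.mem_support_iff]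
            intro h
            apply hg
            by_cases hgc : g ∈ cls U x
            · rw [if_pos hgc, hcls g hgc, sub_self]
            · rw [if_neg hgc, h, sub_zero]
          · have := h (Finsupp.mem_support_iff.2 hx)
            rw [Finsupp.mem_support_iff, hwc, if_pos (self_mem_cls U x)] at this
            exact this (sub_self _)
        omega
      have := hadd _ _ hw ((ZA F N U).smul_mem hcs c) hPw (hsmul c _ hcs (hc x hxN))
      simpa using this
  intro z hz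
  exact key _ z hz le_rfl

/-- `N ≤ N` is normalised by itself (bookkeeping) -/
theorem nor_self (N : Subgroup Γ) : ∀ u ∈ N, ∀ g ∈ N, u * g * u⁻¹ ∈ N :=
  fun _ hu _ hg => N.mul_mem (N.mul_mem hu hg) (N.inv_mem hu)

/-- two functions which are additive and homogeneous on `ZA` and agree on class sums agree -/
theorem ZA_ext {N U : Subgroup Γ} (hn : ∀ u ∈ U, ∀ g ∈ N, u * g * u⁻¹ ∈ N)
    (h k : MonoidAlgebra F Γ → F)
    (h1 : ∀ z ∈ ZA F N U, ∀ w ∈ ZA F N U, h (z + w) = h z + h w)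
    (h2 : ∀ (c : F), ∀ z ∈ ZA F N U, h (c • z) = c * h z)
    (k1 : ∀ z ∈ ZA F N U, ∀ w ∈ ZA F N U, k (z + w) = k z + k w)
    (k2 : ∀ (c : F), ∀ z ∈ ZA F N U, k (c • z) = c * k z)
    (hc : ∀ x ∈ N, h (csum F (cls U x)) = k (csum F (cls U x))) :
    ∀ z ∈ ZA F N U, h z = k z := by
  refine ZA_induction hn ?_ ?_ ?_ hc
  · have h3 := h2 0 0 (ZA F N U).zero_mem
    have h4 := k2 0 0 (ZA F N U).zero_mem
    rw [zero_smul, zero_mul] at h3 h4
    rw [h3, h4]
  · intro z w hz hw hz' hw'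
    rw [h1 z hz w hw, k1 z hz w hw, hz', hw']
  · intro c z hz hz'
    rw [h2 c z hz, k2 c z hz, hz']

/-- if `h z ≠ 0` some class sum in the support of `z` has nonzero value -/
theorem exists_cls_ne_zero {N U : Subgroup Γ} (hn : ∀ u ∈ U, ∀ g ∈ N, u * g * u⁻¹ ∈ N)
    (h : MonoidAlgebra F Γ → F)
    (h1 : ∀ z ∈ ZA F N U, ∀ w ∈ ZA F N U, h (z + w) = h z + h w)
    (h2 : ∀ (c : F), ∀ z ∈ ZA F N U, h (c • z) = c * h z)
    (z : MonoidAlgebra F Γ) (hz : z ∈ ZA F N U) (hne : h z ≠ 0) :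
    ∃ x ∈ N, z.coeff x ≠ 0 ∧ h (csum F (cls U x)) ≠ 0 := by
  by_contra hcon
  push Not at hcon
  apply hne
  have key : ∀ n : ℕ, ∀ w ∈ ZA F N U, (∀ x, w.coeff x ≠ 0 → z.coeff x ≠ 0) →
      w.coeff.support.card ≤ n → h w = 0 := by
    intro n
    have hzero : h 0 = 0 := by
      have h3 := h2 0 0 (ZA F N U).zero_mem
      rwa [zero_smul, zero_mul] at h3
    induction n with
    | zero =>
      intro w _ _ hcard
      have : w.coeff = 0 := by
        rwa [Nat.le_zero, Finset.card_eq_zero, Finsupp.support_eq_empty] at hcard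
      rw [MonoidAlgebra.coeff_eq_zero.1 this]; exact hzero
    | succ n ih =>
      intro w hw hwz hcard
      by_cases hw0 : w = 0
      · rw [hw0]; exact hzero
      obtain ⟨x, hx⟩ : ∃ x, w.coeff x ≠ 0 := by
        by_contra hcon
        push Not at hcon
        apply hw0
        apply MonoidAlgebra.coeff_eq_zero.1
        ext g; exact hcon g
      have hxN : x ∈ N := by
        by_contra h; exact hx (hw.1 x h)
      have hcs : csum F (cls U x) ∈ ZA F N U := csum_cls_mem hn hxN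
      set c := w.coeff x with hcdef
      have hw' : w - c • csum F (cls U x) ∈ ZA F N U :=
        (ZA F N U).sub_mem hw ((ZA F N U).smul_mem hcs c)
      have hwc : ∀ g, (w - c • csum F (cls U x)).coeff g =
          w.coeff g - if g ∈ cls U x then c else 0 := by
        intro g
        rw [MonoidAlgebra.coeff_sub, Finsupp.sub_apply, MonoidAlgebra.coeff_smul,
          Finsupp.smul_apply, coeff_csum]
        split_ifs <;> simp
      have hcls : ∀ g ∈ cls U x, w.coeff g = c := by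
        intro g hg
        obtain ⟨u, hu, rfl⟩ := mem_cls.1 hg
        exact hw.2 u hu x
      have hsub : ∀ g, (w - c • csum F (cls U x)).coeff g ≠ 0 → w.coeff g ≠ 0 := by
        intro g hg h
        rw [hwc] at hg
        apply hg
        by_cases hgc : g ∈ cls U x
        · rw [if_pos hgc, hcls g hgc, sub_self]
        · rw [if_neg hgc, h, sub_zero]
      have hPw : h (w - c • csum F (cls U x)) = 0 := by
        apply ih _ hw' (fun g hg => hwz g (hsub g hg))
        have hlt : (w - c • csum F (cls U x)).coeff.support.card < w.coeff.support.card := by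
          apply Finset.card_lt_card
          refine ⟨fun g hg => ?_, fun h => ?_⟩
          · rw [Finsupp.mem_support_iff] at hg ⊢
            exact hsub g hg
          · have := h (Finsupp.mem_support_iff.2 hx)
            rw [Finsupp.mem_support_iff, hwc, if_pos (self_mem_cls U x)] at this
            exact this (sub_self _)
        omega
      have h3 := h1 _ hw' _ ((ZA F N U).smul_mem hcs c)
      rw [hPw, h2 c _ hcs, hcon x hxN (hwz x hx), mul_zero, add_zero, sub_add_cancel] at h3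
      exact h3
  exact key _ z hz (fun _ h => h) le_rfl

/-! ### Homomorphisms -/

namespace CHom

variable {N : Subgroup Γ} {h : MonoidAlgebra F Γ → F} (hh : CHom N h)
include hh

theorem map_zero : h 0 = 0 := by
  have := hh.map_smul 0 0 (ZA F N N).zero_mem
  rwa [zero_smul, zero_mul] at this

theorem map_neg {z : MonoidAlgebra F Γ} (hz : z ∈ ZA F N N) : h (-z) = - h z := by
  have := hh.map_smul (-1) z hz
  rwa [neg_one_smul, neg_one_mul] at this

theorem map_sub {z w : MonoidAlgebra F Γ} (hz : z ∈ ZA F N N) (hw : w ∈ ZA F N N) :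
    h (z - w) = h z - h w := by
  rw [sub_eq_add_neg, hh.map_add z hz (-w) ((ZA F N N).neg_mem hw), hh.map_neg hw,
    sub_eq_add_neg]

theorem map_pow {z : MonoidAlgebra F Γ} (hz : z ∈ ZA F N N) (n : ℕ) : h (z ^ n) = h z ^ n := by
  induction n with
  | zero => rw [pow_zero, pow_zero, hh.map_one]
  | succ n ih => rw [pow_succ, pow_succ, hh.map_mul _ ((ZA F N N).pow_mem hz n) _ hz, ih]

theorem map_sum {ι : Type*} (s : Finset ι) (f : ι → MonoidAlgebra F Γ)
    (hf : ∀ i ∈ s, f i ∈ ZA F N N) : h (∑ i ∈ s, f i) = ∑ i ∈ s, h (f i) := by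
  induction s using Finset.induction_on with
  | empty => simp only [Finset.sum_empty]; exact hh.map_zero
  | insert a s ha ih =>
    rw [Finset.sum_insert ha, Finset.sum_insert ha,
      hh.map_add _ (hf a (Finset.mem_insert_self a s)) _
        ((ZA F N N).sum_mem (fun i hi => hf i (Finset.mem_insert_of_mem hi))),
      ih (fun i hi => hf i (Finset.mem_insert_of_mem hi))]

/-- the ring homomorphism on the centre -/
def toRingHom : ZA F N N →+* F where
  toFun z := h z
  map_one' := hh.map_one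
  map_mul' a b := hh.map_mul a a.2 b b.2
  map_zero' := hh.map_zero
  map_add' a b := hh.map_add a a.2 b b.2

theorem toRingHom_apply (z : ZA F N N) : hh.toRingHom z = h z := rfl

/-- the algebra homomorphism on the centre -/
def toAlgHom : ZA F N N →ₐ[F] F where
  toFun z := h z
  map_one' := hh.map_one
  map_mul' a b := hh.map_mul a a.2 b b.2
  map_zero' := hh.map_zero
  map_add' a b := hh.map_add a a.2 b b.2
  commutes' c := by
    have h1 : ((algebraMap F (ZA F N N) c : ZA F N N) : MonoidAlgebra F Γ) = c • 1 := by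
      rw [Subalgebra.coe_algebraMap, Algebra.algebraMap_eq_smul_one]
    show h ((algebraMap F (ZA F N N) c : ZA F N N) : MonoidAlgebra F Γ) = _
    rw [h1, hh.map_smul c 1 (ZA F N N).one_mem, hh.map_one, mul_one]
    rfl

theorem toAlgHom_apply (z : ZA F N N) : hh.toAlgHom z = h z := rfl

/-- `exists_cls_ne_zero` for a `CHom` and elements supported on a smaller subgroup `K` and
invariant under a larger `U` -/
theorem exists_cls {K U : Subgroup Γ} (hK : K ≤ N) (hU : N ≤ U)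
    (hn : ∀ u ∈ U, ∀ g ∈ K, u * g * u⁻¹ ∈ K) {z : MonoidAlgebra F Γ} (hz : z ∈ ZA F K U)
    (hne : h z ≠ 0) : ∃ x ∈ K, z.coeff x ≠ 0 ∧ h (csum F (cls U x)) ≠ 0 :=
  exists_cls_ne_zero hn h
    (fun z hz w hw => hh.map_add z (ZA_mono hK hU hz) w (ZA_mono hK hU hw))
    (fun c z hz => hh.map_smul c z (ZA_mono hK hU hz)) z hz hne

end CHom

/-! ### Conjugation, twisting, Brauer map: coefficients -/

theorem coeff_cjA (u : Γ) (z : MonoidAlgebra F Γ) (g : Γ) :
    (cjA u z).coeff g = z.coeff (u * g * u⁻¹) := rfl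

theorem cjA_add (u : Γ) (z w : MonoidAlgebra F Γ) : cjA u (z + w) = cjA u z + cjA u w := by
  apply MonoidAlgebra.ext; ext g; rfl

theorem cjA_smul (u : Γ) (c : F) (z : MonoidAlgebra F Γ) : cjA u (c • z) = c • cjA u z := by
  apply MonoidAlgebra.ext; ext g; rfl

theorem cjA_one_left (z : MonoidAlgebra F Γ) : cjA 1 z = z := by
  apply MonoidAlgebra.ext; ext g
  rw [coeff_cjA]; congr 1; group

theorem cjA_cjA (u v : Γ) (z : MonoidAlgebra F Γ) : cjA u (cjA v z) = cjA (v * u) z := by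
  apply MonoidAlgebra.ext; ext g
  rw [coeff_cjA, coeff_cjA, coeff_cjA]; congr 1; group

theorem cjA_mul (u : Γ) (z w : MonoidAlgebra F Γ) : cjA u (z * w) = cjA u z * cjA u w := by
  apply MonoidAlgebra.ext; ext g
  rw [coeff_cjA, coeff_mul_group, coeff_mul_group]
  rw [← Equiv.sum_comp (MulAut.conj u).toEquiv]
  refine Finset.sum_congr rfl fun a _ => ?_
  have h1 : (MulAut.conj u).toEquiv a = u * a * u⁻¹ := by simp [MulAut.conj_apply]
  rw [h1, coeff_cjA, coeff_cjA]
  congr 2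
  group

theorem cjA_one (u : Γ) : cjA u (1 : MonoidAlgebra F Γ) = 1 := by
  apply MonoidAlgebra.ext; ext g
  rw [coeff_cjA, MonoidAlgebra.one_def, MonoidAlgebra.coeff_single, Finsupp.single_apply,
    Finsupp.single_apply]
  have : (1 = u * g * u⁻¹) ↔ (1 = g) := by
    constructor
    · intro h
      have : g = u⁻¹ * (u * g * u⁻¹) * u := by group
      rw [this, ← h]; group
    · rintro rfl; group
  simp only [this]

theorem cjA_of_mem {N U : Subgroup Γ} {z : MonoidAlgebra F Γ} (hz : z ∈ ZA F N U) {u : Γ}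
    (hu : u ∈ U) : cjA u z = z := by
  apply MonoidAlgebra.ext; ext g
  rw [coeff_cjA, hz.2 u hu]

/-- `cjA u` preserves `ZA F N N'` if `u` normalises `N` and `N'` -/
theorem cjA_mem {N N' : Subgroup Γ} {u : Γ} (hN : ∀ g, u * g * u⁻¹ ∈ N ↔ g ∈ N)
    (hN' : ∀ g ∈ N', u * g * u⁻¹ ∈ N') {z : MonoidAlgebra F Γ} (hz : z ∈ ZA F N N') :
    cjA u z ∈ ZA F N N' := by
  refine ⟨fun g hg => ?_, fun v hv g => ?_⟩
  · rw [coeff_cjA]; exact hz.1 _ (fun h => hg ((hN g).1 h))
  · rw [coeff_cjA, coeff_cjA]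
    have := hz.2 (u * v * u⁻¹) (hN' v hv) (u * g * u⁻¹)
    rw [← this]; congr 1; group

/-- `U` normalises `M` in the form used by `cjA_mem` -/
theorem nor_iff {N U : Subgroup Γ} (hn : ∀ u ∈ U, ∀ g ∈ N, u * g * u⁻¹ ∈ N) {u : Γ}
    (hu : u ∈ U) (g : Γ) : u * g * u⁻¹ ∈ N ↔ g ∈ N := by
  constructor
  · intro h
    have := hn u⁻¹ (U.inv_mem hu) _ h
    have h3 : u⁻¹ * (u * g * u⁻¹) * u⁻¹⁻¹ = g := by group
    rwa [h3] at this
  · exact hn u hu g

theorem coeff_twA (π : integralClosure ℤ ℂ →+* F) {Q : Type} [CommGroup Q] (s : Γ →* Q)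
    (μ : Q →* ℂˣ) (z : MonoidAlgebra F Γ) (g : Γ) :
    (twA π s μ z).coeff g = rd π (μ (s g) : ℂ) * z.coeff g := rfl

theorem twA_add (π : integralClosure ℤ ℂ →+* F) {Q : Type} [CommGroup Q] (s : Γ →* Q)
    (μ : Q →* ℂˣ) (z w : MonoidAlgebra F Γ) :
    twA π s μ (z + w) = twA π s μ z + twA π s μ w := by
  apply MonoidAlgebra.ext; ext g
  rw [coeff_twA, MonoidAlgebra.coeff_add, MonoidAlgebra.coeff_add, Finsupp.add_apply,
    Finsupp.add_apply, coeff_twA, coeff_twA, mul_add]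

theorem twA_smul (π : integralClosure ℤ ℂ →+* F) {Q : Type} [CommGroup Q] (s : Γ →* Q)
    (μ : Q →* ℂˣ) (c : F) (z : MonoidAlgebra F Γ) :
    twA π s μ (c • z) = c • twA π s μ z := by
  apply MonoidAlgebra.ext; ext g
  rw [coeff_twA, MonoidAlgebra.coeff_smul, MonoidAlgebra.coeff_smul, Finsupp.smul_apply,
    Finsupp.smul_apply, coeff_twA, smul_eq_mul, smul_eq_mul]
  ring

theorem twA_one (π : integralClosure ℤ ℂ →+* F) {Q : Type} [CommGroup Q] (s : Γ →* Q)
    (μ : Q →* ℂˣ) : twA π s μ (1 : MonoidAlgebra F Γ) = 1 := by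
  apply MonoidAlgebra.ext; ext g
  rw [coeff_twA, MonoidAlgebra.one_def, MonoidAlgebra.coeff_single, Finsupp.single_apply]
  split_ifs with h
  · rw [← h, map_one, map_one, Units.val_one, rd_one, mul_one]
  · rw [mul_zero]

theorem twA_mul (π : integralClosure ℤ ℂ →+* F) {Q : Type} [CommGroup Q] [Finite Q] (s : Γ →* Q)
    (μ : Q →* ℂˣ) (z w : MonoidAlgebra F Γ) :
    twA π s μ (z * w) = twA π s μ z * twA π s μ w := by
  apply MonoidAlgebra.ext; ext g
  rw [coeff_twA, coeff_mul_group, coeff_mul_group, Finset.mul_sum]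
  refine Finset.sum_congr rfl fun a _ => ?_
  rw [coeff_twA, coeff_twA]
  have h1 : s g = s a * s (a⁻¹ * g) := by rw [← map_mul]; congr 1; group
  rw [h1, rd_mu_mul]
  ring

/-- `twA` preserves `ZA F N U` (no condition: `s` takes values in a commutative group) -/
theorem twA_mem (π : integralClosure ℤ ℂ →+* F) {Q : Type} [CommGroup Q] (s : Γ →* Q)
    (μ : Q →* ℂˣ) {N U : Subgroup Γ} {z : MonoidAlgebra F Γ} (hz : z ∈ ZA F N U) :
    twA π s μ z ∈ ZA F N U := by
  refine ⟨fun g hg => ?_, fun u hu g => ?_⟩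
  · rw [coeff_twA, hz.1 g hg, mul_zero]
  · rw [coeff_twA, coeff_twA, hz.2 u hu]
    congr 4
    rw [map_mul, map_mul, map_inv]
    exact mul_inv_cancel_comm _ _

theorem s_conj {Q : Type} [CommGroup Q] (s : Γ →* Q) (u g : Γ) : s (u * g * u⁻¹) = s g := by
  rw [map_mul, map_mul, map_inv]
  exact mul_inv_cancel_comm _ _

theorem cjA_twA (π : integralClosure ℤ ℂ →+* F) {Q : Type} [CommGroup Q] (s : Γ →* Q)
    (μ : Q →* ℂˣ) (u : Γ) (z : MonoidAlgebra F Γ) :
    cjA u (twA π s μ z) = twA π s μ (cjA u z) := by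
  apply MonoidAlgebra.ext; ext g
  rw [coeff_cjA, coeff_twA, coeff_twA, coeff_cjA, s_conj]

theorem twA_of_ker (π : integralClosure ℤ ℂ →+* F) {Q : Type} [CommGroup Q] (s : Γ →* Q)
    (μ : Q →* ℂˣ) {N U : Subgroup Γ} (hN : N ≤ s.ker) {z : MonoidAlgebra F Γ}
    (hz : z ∈ ZA F N U) : twA π s μ z = z := by
  apply MonoidAlgebra.ext; ext g
  rw [coeff_twA]
  by_cases hg : g ∈ N
  · have : s g = 1 := MonoidHom.mem_ker.1 (hN hg)
    rw [this, map_one, Units.val_one, rd_one, one_mul]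
  · rw [hz.1 g hg, mul_zero]

theorem coeff_br (P : Subgroup Γ) (z : MonoidAlgebra F Γ) (g : Γ) :
    (br P z).coeff g = if g ∈ Subgroup.centralizer (P : Set Γ) then z.coeff g else 0 := by
  show (z.coeff.filter (fun g => g ∈ Subgroup.centralizer (P : Set Γ))) g = _
  rw [Finsupp.filter_apply]

theorem br_add (P : Subgroup Γ) (z w : MonoidAlgebra F Γ) : br P (z + w) = br P z + br P w := by
  apply MonoidAlgebra.ext; ext g
  rw [MonoidAlgebra.coeff_add, Finsupp.add_apply, coeff_br, coeff_br, coeff_br,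
    MonoidAlgebra.coeff_add, Finsupp.add_apply]
  split_ifs <;> simp

theorem br_smul (P : Subgroup Γ) (c : F) (z : MonoidAlgebra F Γ) :
    br P (c • z) = c • br P z := by
  apply MonoidAlgebra.ext; ext g
  rw [MonoidAlgebra.coeff_smul, Finsupp.smul_apply, coeff_br, coeff_br,
    MonoidAlgebra.coeff_smul, Finsupp.smul_apply]
  split_ifs <;> simp

theorem br_one (P : Subgroup Γ) : br P (1 : MonoidAlgebra F Γ) = 1 := by
  apply MonoidAlgebra.ext; ext g
  rw [coeff_br, MonoidAlgebra.one_def, MonoidAlgebra.coeff_single, Finsupp.single_apply]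
  split_ifs with h1 h2 h3 <;> try rfl
  exact absurd (h3 ▸ Subgroup.one_mem _) h1

theorem br_csum (P : Subgroup Γ) (S : Finset Γ) :
    br P (csum F S) =
      csum F (S.filter (fun g => g ∈ Subgroup.centralizer (P : Set Γ))) := by
  apply MonoidAlgebra.ext; ext g
  rw [coeff_br, coeff_csum, coeff_csum]
  simp only [Finset.mem_filter]
  split_ifs with h1 h2 h3 h4 <;> first | rfl | (exfalso; tauto)

theorem cjA_csum (u : Γ) (S : Finset Γ) :
    cjA u (csum F S) = csum F (S.image (fun g => u⁻¹ * g * u)) := by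
  apply MonoidAlgebra.ext; ext g
  rw [coeff_cjA, coeff_csum, coeff_csum]
  have : u * g * u⁻¹ ∈ S ↔ g ∈ S.image (fun g => u⁻¹ * g * u) := by
    rw [Finset.mem_image]
    constructor
    · intro h; exact ⟨_, h, by group⟩
    · rintro ⟨a, ha, rfl⟩
      have : u * (u⁻¹ * a * u) * u⁻¹ = a := by group
      rwa [this]
  simp only [this]

/-! ### The sets `SD` -/

theorem SD_conj {ℓ : ℕ} {N : Subgroup Γ} {𝒟 : Set (Subgroup Γ)} {u : Γ}
    (hN : ∀ g, u * g * u⁻¹ ∈ N ↔ g ∈ N)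
    (h𝒟 : ∀ D ∈ 𝒟, D.map (MulAut.conj u).toMonoidHom ∈ 𝒟) {x : Γ} (hx : x ∈ SD ℓ N 𝒟) :
    u * x * u⁻¹ ∈ SD ℓ N 𝒟 := by
  refine ⟨(hN x).2 hx.1, fun R hR hRN hRc => ?_⟩
  have hmN : R.map (MulAut.conj u⁻¹).toMonoidHom ≤ N := by
    rintro _ ⟨r, hr, rfl⟩
    simp only [MulEquiv.coe_toMonoidHom, MulAut.conj_apply]
    rw [← hN]
    have : u * (u⁻¹ * r * u⁻¹⁻¹) * u⁻¹ = r := by group
    rw [this]; exact hRN hr
  have hmc : R.map (MulAut.conj u⁻¹).toMonoidHom ≤ Subgroup.centralizer {x} := by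
    rintro _ ⟨r, hr, rfl⟩
    simp only [MulEquiv.coe_toMonoidHom, MulAut.conj_apply]
    have h1 := hRc hr
    rw [Subgroup.mem_centralizer_singleton_iff] at h1 ⊢
    have h2 : u⁻¹ * r * u⁻¹⁻¹ * x = u⁻¹ * (r * (u * x * u⁻¹)) * u := by group
    rw [h2, h1]; group
  obtain ⟨D, hD, hRD⟩ := hx.2 (R.map (MulAut.conj u⁻¹).toMonoidHom) (hR.map _) hmN hmc
  refine ⟨_, h𝒟 D hD, ?_⟩
  intro r hr
  have h1 : u⁻¹ * r * u ∈ D := by
    apply hRD
    refine ⟨r, hr, ?_⟩
    simp
  refine ⟨_, h1, ?_⟩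
  simp only [MulEquiv.coe_toMonoidHom, MulAut.conj_apply]
  group

/-- if `D` is an `ℓ`-subgroup, Sylow in the centraliser of `x` in `N`, then the class of `x` lies
in `SD ℓ N (conjs N D)` -/
theorem mem_SD_of_sylow {ℓ : ℕ} [Fact ℓ.Prime] {N D : Subgroup Γ} (hD : IsPGroup ℓ D)
    (hDN : D ≤ N) {x : Γ} (hx : x ∈ N) (hDx : D ≤ Subgroup.centralizer {x})
    (hind : ¬ ℓ ∣ D.relIndex (Subgroup.centralizer {x} ⊓ N)) :
    x ∈ SD ℓ N (conjs N D) := by
  refine ⟨hx, fun R hR hRN hRc => ?_⟩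
  set C := Subgroup.centralizer {x} ⊓ N with hC
  have hDC : D ≤ C := le_inf hDx hDN
  have hRC : R ≤ C := le_inf hRc hRN
  -- `D` as a Sylow subgroup of `C`
  have hDp : IsPGroup ℓ (D.subgroupOf C) := hD.comap_of_injective _ Subtype.val_injective
  have hRp : IsPGroup ℓ (R.subgroupOf C) := hR.comap_of_injective _ Subtype.val_injective
  let S : Sylow ℓ C := hDp.toSylow hind
  obtain ⟨T, hT⟩ := hRp.exists_le_sylow
  obtain ⟨c, hc⟩ := MulAction.exists_smul_eq C S T
  refine ⟨D.map (MulAut.conj (c : Γ)).toMonoidHom, ⟨c, c.2.2, rfl⟩, ?_⟩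
  intro r hr
  have h1 : (⟨r, hRC hr⟩ : C) ∈ (T : Subgroup C) := hT (Subgroup.mem_subgroupOf.2 hr)
  rw [← hc] at h1
  rw [Sylow.coe_subgroup_smul, Subgroup.mem_pointwise_smul_iff_inv_smul_mem] at h1
  have h2 : ((MulAut.conj c)⁻¹ • (⟨r, hRC hr⟩ : C) : C) ∈ D.subgroupOf C := h1
  rw [Subgroup.mem_subgroupOf] at h2
  refine ⟨_, h2, ?_⟩
  simp [MulAut.conj_apply]
  group

end ZAF

end AMc
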