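import Pool.Agent.H3.AM.Defs

/-!
# Alperin–McKay reduction to perfect groups: targets of the modules
-/

open scoped Classical ComplexConjugate

namespace AMc

/-- characters (not necessarily irreducible) -/
def IsChar (G : Type) [Group G] (χ : G → ℂ) : Prop :=
  ∃ (n : ℕ) (ρ : Representation ℂ G (Fin n → ℂ)), ρ.character = χ

/-! ## A. Character theory of a finite group `G` (type level) -/

/-- A1: orthonormality -/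
def T_A1 : Prop := ∀ (G : Type) [Group G] [Fintype G] (χ χ' : G → ℂ), χ ∈ Irr G → χ' ∈ Irr G →
  ∑ g, χ g * conj (χ' g) = if χ = χ' then (Nat.card G : ℂ) else 0

/-- A2: completeness -/
def T_A2 : Prop := ∀ (G : Type) [Group G] [Fintype G] (f : G → ℂ),
  (∀ g x, f (g * x * g⁻¹) = f x) → (∀ χ ∈ Irr G, ∑ g, f g * conj (χ g) = 0) → f = 0

/-- A3: basic facts on characters -/
def T_A3 : Prop := ∀ (G : Type) [Group G] [Fintype G],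
  (∀ χ ∈ Irr G, IsChar G χ ∧ ∃ d : ℕ, 0 < d ∧ χ 1 = d) ∧
  (∀ f, IsChar G f → (∀ g x, f (g * x * g⁻¹) = f x) ∧ (∀ g, conj (f g) = f g⁻¹) ∧
    (∀ g, IsIntegral ℤ (f g)) ∧ ∃ d : ℕ, f 1 = d) ∧
  (∀ f, IsChar G f → ∀ χ ∈ Irr G, ∃ k : ℕ, ∑ g, f g * conj (χ g) = k * (Nat.card G : ℂ)) ∧
  (∀ f, IsChar G f → ∑ g, f g * conj (f g) = (Nat.card G : ℂ) → f ∈ Irr G)

/-- A4: closure properties of characters -/
def T_A4 : Prop :=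
  (∀ (G : Type) [Group G] [Fintype G] (f f' : G → ℂ), IsChar G f → IsChar G f' →
    IsChar G (fun g => f g * f' g)) ∧
  (∀ (N G : Type) [Group N] [Group G] (φ : N →* G) (f : G → ℂ), IsChar G f →
    IsChar N (fun n => f (φ n))) ∧
  (∀ (G : Type) [Group G] (μ : G →* ℂˣ), IsChar G (fun g => (μ g : ℂ)))

/-- A5: integrality of central characters -/
def T_A5 : Prop := ∀ (G : Type) [Group G] [Fintype G] (χ : G → ℂ), χ ∈ Irr G → ∀ x : G,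
  IsIntegral ℤ (cen (MonoidHom.id G) χ x)

/-- A6: multiplicativity of central characters (Schur's lemma) -/
def T_A6 : Prop := ∀ (G : Type) [Group G] [Fintype G] (χ : G → ℂ), χ ∈ Irr G →
  ∀ z w : MonoidAlgebra ℂ G, (∀ u g, z.coeff (u * g * u⁻¹) = z.coeff g) →
    (∀ u g, w.coeff (u * g * u⁻¹) = w.coeff g) →
    (∑ g, (z * w).coeff g * χ g) * χ 1 = (∑ g, z.coeff g * χ g) * (∑ g, w.coeff g * χ g)

/-! ## S. The same facts for subgroups `N` of an ambient finite group `Γ` -/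

/-- S1: support, class function, degree, and characters -/
def T_S1 : Prop := ∀ (Γ : Type) [Group Γ] [Fintype Γ] (N : Subgroup Γ) (θ : Γ → ℂ), θ ∈ IrrS N →
  (∀ g, g ∉ N → θ g = 0) ∧ (∀ n ∈ N, ∀ g, θ (n * g * n⁻¹) = θ g) ∧ (∃ d : ℕ, 0 < d ∧ θ 1 = d) ∧
  (∀ g, conj (θ g) = θ g⁻¹) ∧ IsChar N (fun n => θ n) ∧ (fun n : N => θ n) ∈ Irr N

/-- S2: orthonormality -/
def T_S2 : Prop := ∀ (Γ : Type) [Group Γ] [Fintype Γ] (N : Subgroup Γ) (θ θ' : Γ → ℂ),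
  θ ∈ IrrS N → θ' ∈ IrrS N →
  ∑ g, θ g * conj (θ' g) = if θ = θ' then (Nat.card N : ℂ) else 0

/-- S3: completeness -/
def T_S3 : Prop := ∀ (Γ : Type) [Group Γ] [Fintype Γ] (N : Subgroup Γ) (f : Γ → ℂ),
  (∀ g, g ∉ N → f g = 0) → (∀ n ∈ N, ∀ g, f (n * g * n⁻¹) = f g) →
  (∀ θ ∈ IrrS N, ∑ g, f g * conj (θ g) = 0) → f = 0

/-- S4: restriction to smaller subgroups -/
def T_S4 : Prop := ∀ (Γ : Type) [Group Γ] [Fintype Γ] (N U : Subgroup Γ), N ≤ U →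
  ∀ χ ∈ IrrS U, ∀ θ ∈ IrrS N, ∃ k : ℕ, ∑ g, χ g * conj (θ g) = k * (Nat.card N : ℂ)

/-- S5: integrality -/
def T_S5 : Prop := ∀ (Γ : Type) [Group Γ] [Fintype Γ] (N : Subgroup Γ), ∀ θ ∈ IrrS N,
  (∀ g, IsIntegral ℤ (θ g)) ∧
  (∀ S : Finset Γ, (∀ g ∈ S, g ∈ N) → (∀ n ∈ N, ∀ g ∈ S, n * g * n⁻¹ ∈ S) →
    IsIntegral ℤ (om θ S))

/-- S6: multiplicativity -/
def T_S6 : Prop := ∀ (Γ : Type) [Group Γ] [Fintype Γ] (N : Subgroup Γ), ∀ θ ∈ IrrS N,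
  ∀ z ∈ ZA ℂ N N, ∀ w ∈ ZA ℂ N N,
    (∑ g, (z * w).coeff g * θ g) * θ 1 = (∑ g, z.coeff g * θ g) * (∑ g, w.coeff g * θ g)

/-- S7: conjugation -/
def T_S7 : Prop := ∀ (Γ : Type) [Group Γ] [Fintype Γ] (N N' : Subgroup Γ) (u : Γ),
  (∀ g, g ∈ N' ↔ u * g * u⁻¹ ∈ N) → ∀ θ ∈ IrrS N, cj u θ ∈ IrrS N'

/-- S8: twisting -/
def T_S8 : Prop := ∀ (Γ : Type) [Group Γ] [Fintype Γ] (Q : Type) [CommGroup Q] (s : Γ →* Q)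
  (μ : Q →* ℂˣ) (N : Subgroup Γ), ∀ θ ∈ IrrS N, tw s μ θ ∈ IrrS N

/-- S9: finiteness and the sum of the squares of the degrees -/
def T_S9 : Prop := ∀ (Γ : Type) [Group Γ] [Fintype Γ] (N : Subgroup Γ),
  ∃ fs : Finset (Γ → ℂ), (∀ θ, θ ∈ fs ↔ θ ∈ IrrS N) ∧ ∑ θ ∈ fs, θ 1 * θ 1 = (Nat.card N : ℂ)

/-- S10: irreducibility criterion -/
def T_S10 : Prop := ∀ (Γ : Type) [Group Γ] [Fintype Γ] (N : Subgroup Γ) (f : Γ → ℂ),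
  (∀ g, g ∉ N → f g = 0) → IsChar N (fun n => f n) →
  ∑ g, f g * conj (f g) = (Nat.card N : ℂ) → f ∈ IrrS N

/-! ## E. Clifford theory: `N ≤ U`, `N` normalised by `U` -/

/-- E1: a constituent below -/
def T_E1 : Prop := ∀ (Γ : Type) [Group Γ] [Fintype Γ] (N U : Subgroup Γ), N ≤ U →
  ∀ χ ∈ IrrS U, ∃ θ ∈ IrrS N, Over χ θ

/-- E2: the constituents are conjugate -/
def T_E2 : Prop := ∀ (Γ : Type) [Group Γ] [Fintype Γ] (N U : Subgroup Γ), N ≤ U →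
  (∀ u ∈ U, ∀ g ∈ N, u * g * u⁻¹ ∈ N) →
  ∀ χ ∈ IrrS U, ∀ θ ∈ IrrS N, ∀ θ' ∈ IrrS N, Over χ θ → Over χ θ' → ∃ u ∈ U, θ' = cj u θ

/-- E3: Clifford's formula -/
def T_E3 : Prop := ∀ (Γ : Type) [Group Γ] [Fintype Γ] (N U : Subgroup Γ), N ≤ U →
  (∀ u ∈ U, ∀ g ∈ N, u * g * u⁻¹ ∈ N) →
  ∀ χ ∈ IrrS U, ∀ θ ∈ IrrS N, Over χ θ →
    ∃ a t : ℕ, 0 < a ∧ 0 < t ∧ t * Nat.card (stab U θ) = Nat.card U ∧ χ 1 = a * t * θ 1 ∧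
      a * a * t ≤ N.relIndex U ∧
      ∀ x ∈ N, (Nat.card U : ℂ) * χ x = a * t * ∑ u : U, θ ((u : Γ) * x * (u : Γ)⁻¹)

/-- E4: a character above -/
def T_E4 : Prop := ∀ (Γ : Type) [Group Γ] [Fintype Γ] (N U : Subgroup Γ), N ≤ U →
  ∀ θ ∈ IrrS N, ∃ χ ∈ IrrS U, Over χ θ

/-- E5: at most `|U : N|` characters below -/
def T_E5 : Prop := ∀ (Γ : Type) [Group Γ] [Fintype Γ] (N U : Subgroup Γ), N ≤ U →
  (∀ u ∈ U, ∀ g ∈ N, u * g * u⁻¹ ∈ N) →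
  ∀ χ ∈ IrrS U, {θ | θ ∈ IrrS N ∧ Over χ θ}.Finite ∧
    {θ | θ ∈ IrrS N ∧ Over χ θ}.ncard ≤ N.relIndex U

/-- E6: compatibility of central characters -/
def T_E6 : Prop := ∀ (Γ : Type) [Group Γ] [Fintype Γ] (N U : Subgroup Γ), N ≤ U →
  (∀ u ∈ U, ∀ g ∈ N, u * g * u⁻¹ ∈ N) →
  ∀ χ ∈ IrrS U, ∀ θ ∈ IrrS N, Over χ θ →
  ∀ f : Γ → ℂ, (∀ g, g ∉ N → f g = 0) → (∀ u ∈ U, ∀ g, f (u * g * u⁻¹) = f g) →
    (∑ g, f g * χ g) / χ 1 = (∑ g, f g * θ g) / θ 1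

/-- E7: trivial inertia group -/
def T_E7 : Prop := ∀ (Γ : Type) [Group Γ] [Fintype Γ] (N U : Subgroup Γ), N ≤ U →
  (∀ u ∈ U, ∀ g ∈ N, u * g * u⁻¹ ∈ N) →
  ∀ χ ∈ IrrS U, ∀ θ ∈ IrrS N, Over χ θ → (∀ u ∈ U, cj u θ = θ → u ∈ N) →
    (∀ x, x ∉ N → χ x = 0) ∧ χ 1 = (N.relIndex U : ℂ) * θ 1 ∧
    ∀ χ' ∈ IrrS U, Over χ' θ → χ' = χ

/-- E8: abelian quotients -/
def T_E8 : Prop := ∀ (Γ : Type) [Group Γ] [Fintype Γ] (Q : Type) [CommGroup Q] [Finite Q]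
  (s : Γ →* Q) (U : Subgroup Γ), ∀ ψ ∈ IrrS U, ∀ ψ' ∈ IrrS U, ∀ θ ∈ IrrS (U ⊓ s.ker),
    Over ψ θ → Over ψ' θ → ∃ μ : Q →* ℂˣ, ψ' = tw s μ ψ

/-- E9: the number of linear characters -/
def T_E9 : Prop := ∀ (Q : Type) [CommGroup Q] [Finite Q], Finite (Q →* ℂˣ) ∧
  Nat.card (Q →* ℂˣ) ≤ Nat.card Q

/-! ## B. Modular central characters.
Standing data: `π : 𝔸 → F` surjective onto a field of characteristic `ℓ` (prime). -/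

/-- B0: `F` is algebraically closed and roots of unity of order prime to `ℓ` inject -/
def T_B0 : Prop := ∀ (F : Type) [Field F] (π : integralClosure ℤ ℂ →+* F),
  Function.Surjective π → IsAlgClosed F ∧
  ∀ (ℓ : ℕ) [Fact ℓ.Prime] [CharP F ℓ] (ζ : ℂ) (r : ℕ), ¬ ℓ ∣ r → ζ ^ r = 1 → rd π ζ = 1 → ζ = 1

/-- BL: `lam` can be computed with any invariant lift -/
def T_BL : Prop := ∀ (F : Type) [Field F] (π : integralClosure ℤ ℂ →+* F),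
  Function.Surjective π → ∀ (Γ : Type) [Group Γ] [Fintype Γ] (N : Subgroup Γ),
  ∀ θ ∈ IrrS N, ∀ z : MonoidAlgebra F Γ, (∀ n ∈ N, ∀ g, z.coeff (n * g * n⁻¹) = z.coeff g) →
  ∀ y : Γ → integralClosure ℤ ℂ,
  (∀ n ∈ N, ∀ g, y (n * g * n⁻¹) = y g) → (∀ g ∈ N, π (y g) = z.coeff g) →
    IsIntegral ℤ ((∑ g, (y g : ℂ) * θ g) / θ 1) ∧
    lam π θ z = rd π ((∑ g, (y g : ℂ) * θ g) / θ 1)

/-- B1: `lam π θ` is a homomorphism on the centre of `F[N]` -/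
def T_B1 : Prop := ∀ (F : Type) [Field F] (π : integralClosure ℤ ℂ →+* F),
  Function.Surjective π → ∀ (Γ : Type) [Group Γ] [Fintype Γ] (N : Subgroup Γ),
  ∀ θ ∈ IrrS N, CHom N (lam π θ)

/-- B2: value on sums over invariant sets -/
def T_B2 : Prop := ∀ (F : Type) [Field F] (π : integralClosure ℤ ℂ →+* F),
  Function.Surjective π → ∀ (Γ : Type) [Group Γ] [Fintype Γ] (N : Subgroup Γ),
  ∀ θ ∈ IrrS N, ∀ S : Finset Γ, (∀ n ∈ N, ∀ g ∈ S, n * g * n⁻¹ ∈ S) →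
    IsIntegral ℤ (om θ S) ∧ lam π θ (csum F S) = rd π (om θ S)

/-- B3: every homomorphism on the centre of `F[N]` comes from a character -/
def T_B3 : Prop := ∀ (F : Type) [Field F] (π : integralClosure ℤ ℂ →+* F),
  Function.Surjective π → ∀ (ℓ : ℕ) [Fact ℓ.Prime] [CharP F ℓ]
  (Γ : Type) [Group Γ] [Fintype Γ] (N : Subgroup Γ) (h : MonoidAlgebra F Γ → F), CHom N h →
  ∃ θ ∈ IrrS N, ∀ z ∈ ZA F N N, h z = lam π θ z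

/-- B4: compatibility with restriction to normal subgroups -/
def T_B4 : Prop := ∀ (F : Type) [Field F] (π : integralClosure ℤ ℂ →+* F),
  Function.Surjective π → ∀ (Γ : Type) [Group Γ] [Fintype Γ] (N U : Subgroup Γ), N ≤ U →
  (∀ u ∈ U, ∀ g ∈ N, u * g * u⁻¹ ∈ N) →
  ∀ χ ∈ IrrS U, ∀ θ ∈ IrrS N, Over χ θ → ∀ z ∈ ZA F N U, lam π χ z = lam π θ z

/-- B5: conjugation -/
def T_B5 : Prop := ∀ (F : Type) [Field F] (π : integralClosure ℤ ℂ →+* F)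
  (Γ : Type) [Group Γ] [Fintype Γ] (θ : Γ → ℂ) (u : Γ) (z : MonoidAlgebra F Γ),
  lam π (cj u θ) z = lam π θ (cjA u⁻¹ z)

/-- B6: twisting -/
def T_B6 : Prop := ∀ (F : Type) [Field F] (π : integralClosure ℤ ℂ →+* F),
  Function.Surjective π → ∀ (Γ : Type) [Group Γ] [Fintype Γ] (Q : Type) [CommGroup Q] [Finite Q]
  (s : Γ →* Q) (μ : Q →* ℂˣ) (N : Subgroup Γ), ∀ θ ∈ IrrS N, ∀ z ∈ ZA F N N,
  lam π (tw s μ θ) z = lam π θ (twA π s μ z)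

/-- B7: heights are nonnegative -/
def T_B7 : Prop := ∀ (F : Type) [Field F] (π : integralClosure ℤ ℂ →+* F),
  Function.Surjective π → ∀ (ℓ : ℕ) [Fact ℓ.Prime] [CharP F ℓ]
  (Γ : Type) [Group Γ] [Fintype Γ] (N : Subgroup Γ), ∀ θ ∈ IrrS N, ∀ x ∈ N,
  lam π θ (csum F (cls N x)) ≠ 0 → ∀ d : ℕ, θ 1 = d →
  padicValNat ℓ ((Subgroup.centralizer {x} ⊓ N).relIndex N) ≤ padicValNat ℓ d

/-- B9: dictionary between congruences and `lam` -/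
def T_B9 : Prop := ∀ (F : Type) [Field F] (π : integralClosure ℤ ℂ →+* F),
  Function.Surjective π → ∀ (ℓ : ℕ) [Fact ℓ.Prime] [CharP F ℓ]
  (Γ : Type) [Group Γ] [Fintype Γ] (N : Subgroup Γ), ∀ χ ∈ IrrS N,
  (∀ χ' ∈ IrrS N, (SameS (RingHom.ker π) N χ χ' ↔ ∀ z ∈ ZA F N N, lam π χ' z = lam π χ z)) ∧
  (∀ D : Subgroup Γ, IsDefS ℓ (RingHom.ker π) N χ D ↔ DefH ℓ N (lam π χ) D) ∧
  (∀ D : Subgroup Γ, K0S ℓ (RingHom.ker π) N χ D = K0H π ℓ N χ D)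

/-- B8: dictionary for Brauer induction -/
def T_B8 : Prop := ∀ (F : Type) [Field F] (π : integralClosure ℤ ℂ →+* F),
  Function.Surjective π → ∀ (ℓ : ℕ) [Fact ℓ.Prime] [CharP F ℓ]
  (Γ : Type) [Group Γ] [Fintype Γ] (N P : Subgroup Γ), IsPGroup ℓ P → P ≤ N →
  ∀ χ ∈ IrrS N, ∀ ψ ∈ IrrS (N ⊓ Subgroup.normalizer (P : Set Γ)),
  (CorrS (RingHom.ker π) N χ ψ ↔ ∀ z ∈ ZA F N N, lam π χ z = lam π ψ (br P z))

/-! ## C. Group algebras in characteristic `ℓ` -/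

/-- C1: fixed points -/
def T_C1 : Prop := ∀ (F : Type) [Field F] (ℓ : ℕ) [Fact ℓ.Prime] [CharP F ℓ]
  (T Ω : Type) [Group T] [Finite T] [MulAction T Ω] [Fintype Ω], IsPGroup ℓ T →
  ∀ f : Ω → F, (∀ (t : T) (ω : Ω), f (t • ω) = f ω) →
  ∑ ω, f ω = ∑ ω : Ω, if (∀ t : T, t • ω = ω) then f ω else 0

/-- C2: the elements supported on `SD ℓ N 𝒟` form an ideal -/
def T_C2 : Prop := ∀ (F : Type) [Field F] (ℓ : ℕ) [Fact ℓ.Prime] [CharP F ℓ]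
  (Γ : Type) [Group Γ] [Fintype Γ] (N : Subgroup Γ) (𝒟 : Set (Subgroup Γ)),
  ∀ z ∈ ZA F N N, ∀ w ∈ ZA F N N, (∀ g, z.coeff g ≠ 0 → g ∈ SD ℓ N 𝒟) →
  ∀ g, (z * w).coeff g ≠ 0 → g ∈ SD ℓ N 𝒟

/-- C3: existence of defect groups -/
def T_C3 : Prop := ∀ (F : Type) [Field F] (ℓ : ℕ) [Fact ℓ.Prime] [CharP F ℓ]
  (Γ : Type) [Group Γ] [Fintype Γ] (N : Subgroup Γ) (h : MonoidAlgebra F Γ → F), CHom N h →
  ∃ D : Subgroup Γ, DefH ℓ N h D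

/-- C4: invariant elements (norm and prime avoidance) -/
def T_C4 : Prop := ∀ (F : Type) [Field F] (ℓ : ℕ) [Fact ℓ.Prime] [CharP F ℓ]
  (Γ : Type) [Group Γ] [Fintype Γ] (K U : Subgroup Γ), K ≤ U →
  (∀ u ∈ U, ∀ g ∈ K, u * g * u⁻¹ ∈ K) →
  ∀ 𝒟 : Set (Subgroup Γ), (∀ u ∈ U, ∀ D ∈ 𝒟, D.map (MulAut.conj u).toMonoidHom ∈ 𝒟) →
  ∀ h : MonoidAlgebra F Γ → F, CHom K h →
  ∀ z ∈ ZA F K K, (∀ g, z.coeff g ≠ 0 → g ∈ SD ℓ K 𝒟) → h z ≠ 0 →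
  ∃ w ∈ ZA F K U, (∀ g, w.coeff g ≠ 0 → g ∈ SD ℓ K 𝒟) ∧ h w ≠ 0

/-! ## D. The Brauer map -/

/-- D1: multiplicativity -/
def T_D1 : Prop := ∀ (F : Type) [Field F] (ℓ : ℕ) [Fact ℓ.Prime] [CharP F ℓ]
  (Γ : Type) [Group Γ] [Fintype Γ] (P : Subgroup Γ), IsPGroup ℓ P →
  ∀ z ∈ ZA F ⊤ P, ∀ w ∈ ZA F ⊤ P, br P (z * w) = br P z * br P w

/-- D2: where the Brauer map lands -/
def T_D2 : Prop := ∀ (F : Type) [Field F]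
  (Γ : Type) [Group Γ] [Fintype Γ] (N U P : Subgroup Γ),
  ∀ z ∈ ZA F N U, br P z ∈ ZA F (N ⊓ Subgroup.normalizer (P : Set Γ))
    (U ⊓ Subgroup.normalizer (P : Set Γ))

/-- D3: vanishing outside the centraliser of a normal `ℓ`-subgroup -/
def T_D3 : Prop := ∀ (F : Type) [Field F] (ℓ : ℕ) [Fact ℓ.Prime] [CharP F ℓ]
  (Γ : Type) [Group Γ] [Fintype Γ] (N P : Subgroup Γ), IsPGroup ℓ P → P ≤ N →
  N ≤ Subgroup.normalizer (P : Set Γ) → ∀ h : MonoidAlgebra F Γ → F, CHom N h →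
  ∀ z ∈ ZA F N N, (∀ g ∈ Subgroup.centralizer (P : Set Γ), z.coeff g = 0) → h z = 0

/-- D4: fusion in the centraliser -/
def T_D4 : Prop := ∀ (ℓ : ℕ) [Fact ℓ.Prime] (Γ : Type) [Group Γ] [Fintype Γ]
  (K U P : Subgroup Γ), K ≤ U → (∀ u ∈ U, ∀ g ∈ K, u * g * u⁻¹ ∈ K) → IsPGroup ℓ P → P ≤ K →
  ∀ x ∈ K, x ∈ Subgroup.centralizer (P : Set Γ) →
  ¬ ℓ ∣ P.relIndex (Subgroup.centralizer {x} ⊓ K) →
  ∀ y ∈ Subgroup.centralizer (P : Set Γ), y ∈ cls U x →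
    y ∈ cls (U ⊓ Subgroup.normalizer (P : Set Γ)) x

/-- D5: Brauer's first main theorem, upwards -/
def T_D5 : Prop := ∀ (F : Type) [Field F] (ℓ : ℕ) [Fact ℓ.Prime] [CharP F ℓ]
  (Γ : Type) [Group Γ] [Fintype Γ] (N P : Subgroup Γ), IsPGroup ℓ P → P ≤ N →
  ∀ k : MonoidAlgebra F Γ → F, CHom (N ⊓ Subgroup.normalizer (P : Set Γ)) k →
    DefH ℓ (N ⊓ Subgroup.normalizer (P : Set Γ)) k P →
    CHom N (fun z => k (br P z)) ∧ DefH ℓ N (fun z => k (br P z)) P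

/-- D5b: the correspondent has the same defect group -/
def T_D5b : Prop := ∀ (F : Type) [Field F] (ℓ : ℕ) [Fact ℓ.Prime] [CharP F ℓ]
  (Γ : Type) [Group Γ] [Fintype Γ] (N P : Subgroup Γ),
  ∀ h k : MonoidAlgebra F Γ → F, CHom N h → DefH ℓ N h P →
    CHom (N ⊓ Subgroup.normalizer (P : Set Γ)) k →
    (∀ z ∈ ZA F N N, h z = k (br P z)) → DefH ℓ (N ⊓ Subgroup.normalizer (P : Set Γ)) k P

/-- D6: uniqueness -/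
def T_D6 : Prop := ∀ (F : Type) [Field F] (ℓ : ℕ) [Fact ℓ.Prime] [CharP F ℓ]
  (Γ : Type) [Group Γ] [Fintype Γ] (K U P : Subgroup Γ), K ≤ U →
  (∀ u ∈ U, ∀ g ∈ K, u * g * u⁻¹ ∈ K) → IsPGroup ℓ P → P ≤ K →
  ∀ h k : MonoidAlgebra F Γ → F, CHom (K ⊓ Subgroup.normalizer (P : Set Γ)) h →
    CHom (K ⊓ Subgroup.normalizer (P : Set Γ)) k →
    (∀ z ∈ ZA F K U, h (br P z) = k (br P z)) →
    (∃ z ∈ ZA F K U, (∀ g, z.coeff g ≠ 0 → g ∈ SD ℓ K (conjs U P)) ∧ h (br P z) ≠ 0) →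
    ∀ z ∈ ZA F (K ⊓ Subgroup.normalizer (P : Set Γ)) (U ⊓ Subgroup.normalizer (P : Set Γ)),
      h z = k z

/-- D7: Brauer's first main theorem, downwards -/
def T_D7 : Prop := ∀ (F : Type) [Field F] [IsAlgClosed F] (ℓ : ℕ) [Fact ℓ.Prime] [CharP F ℓ]
  (Γ : Type) [Group Γ] [Fintype Γ] (N P : Subgroup Γ),
  ∀ h : MonoidAlgebra F Γ → F, CHom N h → DefH ℓ N h P →
    ∃ k : MonoidAlgebra F Γ → F, CHom (N ⊓ Subgroup.normalizer (P : Set Γ)) k ∧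
      ∀ z ∈ ZA F N N, h z = k (br P z)

/-- G1: homomorphisms agreeing on invariants are conjugate up to a linear twist -/
def T_G1 : Prop := ∀ (F : Type) [Field F] (π : integralClosure ℤ ℂ →+* F),
  Function.Surjective π → ∀ (ℓ : ℕ) [Fact ℓ.Prime] [CharP F ℓ]
  (Γ : Type) [Group Γ] [Fintype Γ] (Q : Type) [CommGroup Q] [Finite Q] (s : Γ →* Q)
  (M U : Subgroup Γ), M ≤ U → (∀ u ∈ U, ∀ g ∈ M, u * g * u⁻¹ ∈ M) →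
  ∀ h k : MonoidAlgebra F Γ → F, CHom M h → CHom M k →
  (∀ z ∈ ZA F (M ⊓ s.ker) U, h z = k z) →
  ∃ u ∈ U, ∃ μ : Q →* ℂˣ, ∀ z ∈ ZA F M M, h z = k (cjA u (twA π s μ z))

/-! ## F. The quadruple `(U, M, s)`: `M ≤ U` normalised by `U`, `s M = s U`,
`K = M ⊓ ker s`, `H = U ⊓ ker s`. -/

/-- the standing hypothesis on `(U, M, s)` -/
structure Quad {Γ : Type} [Group Γ] {Q : Type} [CommGroup Q] (s : Γ →* Q) (U M : Subgroup Γ) :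
    Prop where
  le : M ≤ U
  nor : ∀ u ∈ U, ∀ g ∈ M, u * g * u⁻¹ ∈ M
  sur : ∀ u ∈ U, ∃ m ∈ M, s m = s u

/-- non-invariance of the block of `ψ` -/
def NI {F : Type} [Field F] (π : integralClosure ℤ ℂ →+* F) {Γ : Type} [Group Γ] [Fintype Γ]
    {Q : Type} [CommGroup Q] (s : Γ →* Q) (U M : Subgroup Γ) (ψ : Γ → ℂ) : Prop :=
  ∀ h ∈ U, h ∉ M → ∀ μ : Q →* ℂˣ, ∃ z ∈ ZA F M M, lam π (cj h ψ) z ≠ lam π (tw s μ ψ) z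

/-- F0: a defect class inside `K` -/
def T_F0 : Prop := ∀ (F : Type) [Field F] (ℓ : ℕ) [Fact ℓ.Prime] [CharP F ℓ]
  (Γ : Type) [Group Γ] [Fintype Γ] (Q : Type) [CommGroup Q] [Finite Q] (s : Γ →* Q)
  (M E : Subgroup Γ) (h : MonoidAlgebra F Γ → F), CHom M h → DefH ℓ M h E →
  ∃ y ∈ M ⊓ s.ker, h (csum F (cls M y)) ≠ 0 ∧ E ≤ Subgroup.centralizer {y} ∧
    ¬ ℓ ∣ E.relIndex (Subgroup.centralizer {y} ⊓ M) ∧
    ¬ ℓ ∣ (E ⊓ s.ker).relIndex (Subgroup.centralizer {y} ⊓ (M ⊓ s.ker))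

/-- F1: degrees of the constituents of height zero characters -/
def T_F1 : Prop := ∀ (F : Type) [Field F] (π : integralClosure ℤ ℂ →+* F),
  Function.Surjective π → ∀ (ℓ : ℕ) [Fact ℓ.Prime] [CharP F ℓ]
  (Γ : Type) [Group Γ] [Fintype Γ] (Q : Type) [CommGroup Q] [Finite Q] (s : Γ →* Q)
  (M E : Subgroup Γ), IsPGroup ℓ E → E ≤ M →
  ∀ y ∈ M ⊓ s.ker, E ≤ Subgroup.centralizer {y} →
    ¬ ℓ ∣ E.relIndex (Subgroup.centralizer {y} ⊓ M) →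
    ¬ ℓ ∣ (E ⊓ s.ker).relIndex (Subgroup.centralizer {y} ⊓ (M ⊓ s.ker)) →
  ∀ ψ ∈ IrrS M, lam π ψ (csum F (cls M y)) ≠ 0 →
  ∀ d : ℕ, ψ 1 = d → padicValNat ℓ d = padicValNat ℓ (E.relIndex M) →
  ∀ θ ∈ IrrS (M ⊓ s.ker), Over ψ θ → ∀ d' : ℕ, θ 1 = d' →
    padicValNat ℓ d' = padicValNat ℓ ((E ⊓ s.ker).relIndex (M ⊓ s.ker))

/-- F2: choice of the constituent -/
def T_F2 : Prop := ∀ (F : Type) [Field F] (π : integralClosure ℤ ℂ →+* F),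
  Function.Surjective π → ∀ (ℓ : ℕ) [Fact ℓ.Prime] [CharP F ℓ]
  (Γ : Type) [Group Γ] [Fintype Γ] (K M : Subgroup Γ), K ≤ M →
  (∀ u ∈ M, ∀ g ∈ K, u * g * u⁻¹ ∈ K) → ∀ y ∈ K,
  ∀ ψ ∈ IrrS M, lam π ψ (csum F (cls M y)) ≠ 0 →
  ∃ θ ∈ IrrS K, Over ψ θ ∧ lam π θ (csum F (cls K y)) ≠ 0

/-- F3: the inertia group of the block of `θ` -/
def T_F3 : Prop := ∀ (F : Type) [Field F] (π : integralClosure ℤ ℂ →+* F),
  Function.Surjective π → ∀ (ℓ : ℕ) [Fact ℓ.Prime] [CharP F ℓ]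
  (Γ : Type) [Group Γ] [Fintype Γ] (Q : Type) [CommGroup Q] [Finite Q] (s : Γ →* Q)
  (U M : Subgroup Γ), Quad s U M → ∀ ψ ∈ IrrS M, NI π s U M ψ →
  ∀ θ ∈ IrrS (M ⊓ s.ker), Over ψ θ → ∀ h ∈ U,
  (∀ z ∈ ZA F (M ⊓ s.ker) (M ⊓ s.ker), lam π (cj h θ) z = lam π θ z) → h ∈ M

/-- F4: the block of `H` above `θ` -/
def T_F4 : Prop := ∀ (F : Type) [Field F] (π : integralClosure ℤ ℂ →+* F),
  Function.Surjective π → ∀ (ℓ : ℕ) [Fact ℓ.Prime] [CharP F ℓ]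
  (Γ : Type) [Group Γ] [Fintype Γ] (K H P : Subgroup Γ), K ≤ H →
  (∀ u ∈ H, ∀ g ∈ K, u * g * u⁻¹ ∈ K) → IsPGroup ℓ P → P ≤ K →
  ∀ θ ∈ IrrS K, (∀ h ∈ H, (∀ z ∈ ZA F K K, lam π (cj h θ) z = lam π θ z) → h ∈ K) →
  ∀ y ∈ K, lam π θ (csum F (cls K y)) ≠ 0 → P ≤ Subgroup.centralizer {y} →
    ¬ ℓ ∣ P.relIndex (Subgroup.centralizer {y} ⊓ K) →
  (∀ d' : ℕ, θ 1 = d' → padicValNat ℓ d' = padicValNat ℓ (P.relIndex K)) →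
  ∀ χ ∈ IrrS H, Over χ θ →
    (∀ x, x ∉ K → χ x = 0) ∧ χ 1 = (K.relIndex H : ℂ) * θ 1 ∧ DefH ℓ H (lam π χ) P

/-- FC: lower bound for the number of height zero characters -/
def T_FC : Prop := ∀ (F : Type) [Field F] (π : integralClosure ℤ ℂ →+* F),
  Function.Surjective π → ∀ (ℓ : ℕ) [Fact ℓ.Prime] [CharP F ℓ]
  (Γ : Type) [Group Γ] [Fintype Γ] (Q : Type) [CommGroup Q] [Finite Q] (s : Γ →* Q)
  (U M E : Subgroup Γ), Quad s U M → ∀ ψ ∈ IrrS M, DefH ℓ M (lam π ψ) E → NI π s U M ψ →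
  ψ ∈ K0H π ℓ M ψ E →
  ∃ χ ∈ IrrS (U ⊓ s.ker), DefH ℓ (U ⊓ s.ker) (lam π χ) (E ⊓ s.ker) ∧
    (∀ z ∈ ZA F (M ⊓ s.ker) U, lam π χ z = lam π ψ z) ∧
    (K0H π ℓ M ψ E).ncard ≤
      Nat.card Q * (K0H π ℓ (U ⊓ s.ker) χ (E ⊓ s.ker)).ncard

/-- FJ: nonvanishing on the ideal -/
def T_FJ : Prop := ∀ (F : Type) [Field F] (π : integralClosure ℤ ℂ →+* F),
  Function.Surjective π → ∀ (ℓ : ℕ) [Fact ℓ.Prime] [CharP F ℓ]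
  (Γ : Type) [Group Γ] [Fintype Γ] (Q : Type) [CommGroup Q] [Finite Q] (s : Γ →* Q)
  (U M E : Subgroup Γ), Quad s U M → ∀ ψ ∈ IrrS M, DefH ℓ M (lam π ψ) E →
  ∃ z ∈ ZA F (M ⊓ s.ker) U,
    (∀ g, z.coeff g ≠ 0 → g ∈ SD ℓ (M ⊓ s.ker) (conjs U (E ⊓ s.ker))) ∧ lam π ψ z ≠ 0

/-- GC: upper bound for the number of height zero characters -/
def T_GC : Prop := ∀ (F : Type) [Field F] (π : integralClosure ℤ ℂ →+* F),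
  Function.Surjective π → ∀ (ℓ : ℕ) [Fact ℓ.Prime] [CharP F ℓ]
  (Γ : Type) [Group Γ] [Fintype Γ] (Q : Type) [CommGroup Q] [Finite Q] (s : Γ →* Q)
  (U M E : Subgroup Γ), Quad s U M → E ≤ M → ∀ ψ ∈ IrrS M, NI π s U M ψ →
  ∀ χ ∈ IrrS (U ⊓ s.ker), (∀ z ∈ ZA F (M ⊓ s.ker) U, lam π χ z = lam π ψ z) →
  (K0H π ℓ (U ⊓ s.ker) χ (E ⊓ s.ker)).ncard ≤ Nat.card Q *
    {ψ' | ψ' ∈ IrrS M ∧ (∀ z ∈ ZA F M M, lam π ψ' z = lam π ψ z) ∧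
      ∃ d : ℕ, ψ' 1 = d ∧ padicValNat ℓ d ≤ padicValNat ℓ (E.relIndex M) + Nat.card Q}.ncard

end AMc
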