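import Mathlib

/-!
# Alperin–McKay (MP_657073_al): elementary definitions

`𝔸 = integralClosure ℤ ℂ` is the ring of algebraic integers, `𝔪` a maximal ideal of `𝔸`
containing the prime `ℓ`.
-/

open scoped Classical

namespace AMc

/-! ## Statement-level definitions (these go into the hand-in) -/

/-- Complex irreducible characters of the finite group `G`. -/
def Irr (G : Type) [Group G] : Set (G → ℂ) :=
  {χ | ∃ (n : ℕ) (ρ : Representation ℂ G (Fin n → ℂ)), ρ.IsIrreducible ∧ ρ.character = χ}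

/-- Congruence of complex numbers modulo an ideal of the ring of algebraic integers. -/
def Cong (𝔪 : Ideal (integralClosure ℤ ℂ)) (a b : ℂ) : Prop :=
  ∃ c ∈ 𝔪, (c : ℂ) = a - b

/-- For `j : N →* G` and `ψ : N → ℂ`: the sum of `ψ y / ψ 1` over the `y : N` with `j y`
conjugate to `x` in `G`. For `N = G`, `j = id` and `ψ` a character this is the central character
`ω_ψ` at the class sum of `x`, that is `|x^G| ψ(x) / ψ(1)`. -/
noncomputable def cen {N G : Type} [Group N] [Fintype N] [Group G] (j : N →* G) (ψ : N → ℂ)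
    (x : G) : ℂ :=
  (∑ y : N, if IsConj x (j y) then ψ y else 0) / ψ 1

/-- `χ` and `χ'` have congruent central characters, i.e. lie in the same `ℓ`-block. -/
def SameBlock {G : Type} [Group G] [Fintype G] (𝔪 : Ideal (integralClosure ℤ ℂ))
    (χ χ' : G → ℂ) : Prop :=
  ∀ x : G, Cong 𝔪 (cen (MonoidHom.id G) χ x) (cen (MonoidHom.id G) χ' x)

/-- `D` is a defect group of the `ℓ`-block of `χ` (min-max characterisation). -/
def IsDefect {G : Type} [Group G] [Fintype G] (ℓ : ℕ) (𝔪 : Ideal (integralClosure ℤ ℂ))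
    (χ : G → ℂ) (D : Subgroup G) : Prop :=
  IsPGroup ℓ D ∧
  (∃ x : G, ¬ Cong 𝔪 (cen (MonoidHom.id G) χ x) 0 ∧ D ≤ Subgroup.centralizer {x} ∧
    ¬ ℓ ∣ D.relIndex (Subgroup.centralizer {x})) ∧
  ∀ x : G, ¬ Cong 𝔪 (cen (MonoidHom.id G) χ x) 0 →
    ∃ g : G, ∀ d ∈ D, g * d * g⁻¹ ∈ Subgroup.centralizer {x}

/-- The block of `χ` is induced from the block of `ψ` along `j : N →* G` (Brauer induction):
`ω_χ(x) ≡ ∑_{y ∈ x^G ∩ N} ψ y / ψ 1`. -/
def Corr {N G : Type} [Group N] [Fintype N] [Group G] [Fintype G]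
    (𝔪 : Ideal (integralClosure ℤ ℂ)) (j : N →* G) (χ : G → ℂ) (ψ : N → ℂ) : Prop :=
  ∀ x : G, Cong 𝔪 (cen (MonoidHom.id G) χ x) (cen j ψ x)

/-- number of irreducible characters of height zero in the block of `χ` with defect group `D` -/
noncomputable def k0 {G : Type} [Group G] [Fintype G] (ℓ : ℕ)
    (𝔪 : Ideal (integralClosure ℤ ℂ)) (χ : G → ℂ) (D : Subgroup G) : ℕ :=
  Set.ncard {χ' : G → ℂ | χ' ∈ Irr G ∧ SameBlock 𝔪 χ χ' ∧
    ∃ d : ℕ, χ' 1 = d ∧ padicValNat ℓ d = padicValNat ℓ D.index}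

/-! ## Ambient versions: everything is a function on the ambient finite group `Γ` -/

section Ambient

variable {Γ : Type} [Group Γ]

/-- extension by zero of a function on the subgroup `N` -/
noncomputable def ext0 (N : Subgroup Γ) (ψ : N → ℂ) : Γ → ℂ :=
  fun g => if h : g ∈ N then ψ ⟨g, h⟩ else 0

/-- irreducible characters of the subgroup `N`, extended by zero to the ambient group -/
def IrrS (N : Subgroup Γ) : Set (Γ → ℂ) := {χ | ∃ ψ ∈ Irr N, ext0 N ψ = χ}

/-- `(∑_{g ∈ S} χ g) / χ 1` -/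
noncomputable def om (χ : Γ → ℂ) (S : Finset Γ) : ℂ := (∑ g ∈ S, χ g) / χ 1

variable [Fintype Γ]

/-- the `U`-conjugacy orbit of `x` -/
noncomputable def cls (U : Subgroup Γ) (x : Γ) : Finset Γ :=
  Finset.univ.filter (fun y => ∃ u ∈ U, y = u * x * u⁻¹)

/-- `χ` lies over `θ` (`θ` is supported on a smaller subgroup) -/
def Over (χ θ : Γ → ℂ) : Prop := ∑ g : Γ, χ g * starRingEnd ℂ (θ g) ≠ 0

/-- conjugate function `θ^u : g ↦ θ (u g u⁻¹)` -/
def cj (u : Γ) (θ : Γ → ℂ) : Γ → ℂ := fun g => θ (u * g * u⁻¹)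

/-- twist of a function by a linear character `μ ∘ s` -/
def tw {Q : Type} [CommGroup Q] (s : Γ →* Q) (μ : Q →* ℂˣ) (θ : Γ → ℂ) : Γ → ℂ :=
  fun g => (μ (s g) : ℂ) * θ g

/-- stabiliser in `U` of the function `θ` -/
def stab (U : Subgroup Γ) (θ : Γ → ℂ) : Subgroup Γ where
  carrier := {u | u ∈ U ∧ cj u θ = θ}
  mul_mem' := by
    rintro u v ⟨hu, hu'⟩ ⟨hv, hv'⟩
    refine ⟨U.mul_mem hu hv, ?_⟩
    have h : cj (u * v) θ = cj v (cj u θ) := by
      funext g; simp only [cj]; congr 1; group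
    rw [h, hu', hv']
  one_mem' := ⟨U.one_mem, by funext g; simp [cj]⟩
  inv_mem' := by
    rintro u ⟨hu, hu'⟩
    refine ⟨U.inv_mem hu, ?_⟩
    funext g
    have := congrFun hu' (u⁻¹ * g * u)
    simp only [cj] at this ⊢
    rw [inv_inv, ← this]
    congr 1
    group

/-- `D` is a defect group (inside the subgroup `U`) of the block of `χ ∈ IrrS U` -/
def IsDefS (ℓ : ℕ) (𝔪 : Ideal (integralClosure ℤ ℂ)) (U : Subgroup Γ) (χ : Γ → ℂ)
    (D : Subgroup Γ) : Prop :=
  IsPGroup ℓ D ∧ D ≤ U ∧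
  (∃ x ∈ U, ¬ Cong 𝔪 (om χ (cls U x)) 0 ∧ D ≤ Subgroup.centralizer {x} ∧
    ¬ ℓ ∣ D.relIndex (Subgroup.centralizer {x} ⊓ U)) ∧
  ∀ x ∈ U, ¬ Cong 𝔪 (om χ (cls U x)) 0 →
    ∃ u ∈ U, ∀ d ∈ D, u * d * u⁻¹ ∈ Subgroup.centralizer {x}

/-- same block (inside `U`) -/
def SameS (𝔪 : Ideal (integralClosure ℤ ℂ)) (U : Subgroup Γ) (χ χ' : Γ → ℂ) : Prop :=
  ∀ x ∈ U, Cong 𝔪 (om χ (cls U x)) (om χ' (cls U x))

/-- Brauer induction from a smaller subgroup on which `ψ` is supported -/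
def CorrS (𝔪 : Ideal (integralClosure ℤ ℂ)) (U : Subgroup Γ) (χ ψ : Γ → ℂ) : Prop :=
  ∀ x ∈ U, Cong 𝔪 (om χ (cls U x)) (om ψ (cls U x))

/-- height zero characters in the block of `χ` -/
def K0S (ℓ : ℕ) (𝔪 : Ideal (integralClosure ℤ ℂ)) (U : Subgroup Γ) (χ : Γ → ℂ)
    (D : Subgroup Γ) : Set (Γ → ℂ) :=
  {χ' | χ' ∈ IrrS U ∧ SameS 𝔪 U χ χ' ∧
    ∃ d : ℕ, χ' 1 = d ∧ padicValNat ℓ d = padicValNat ℓ (D.relIndex U)}

end Ambient

/-! ## The algebra side: `F` a field with a surjection `π` from the algebraic integers -/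

section Algebra

variable {F : Type} [Field F] (π : integralClosure ℤ ℂ →+* F)

/-- reduction of an algebraic integer (junk `0` for other complex numbers) -/
noncomputable def rd (a : ℂ) : F := if h : IsIntegral ℤ a then π ⟨a, h⟩ else 0

variable {Γ : Type} [Group Γ] [Fintype Γ]

/-- the modular central character of `θ`, as a total function on the group algebra -/
noncomputable def lam (θ : Γ → ℂ) (z : MonoidAlgebra F Γ) : F :=
  rd π ((∑ g : Γ, ((Function.invFun π (z.coeff g) : integralClosure ℤ ℂ) : ℂ) * θ g) / θ 1)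

/-- the sum of the elements of `S` in the group algebra -/
noncomputable def csum (F : Type) [Field F] (S : Finset Γ) : MonoidAlgebra F Γ :=
  ∑ g ∈ S, MonoidAlgebra.single g 1

variable (R : Type) [CommRing R]

theorem coeff_mul_group {Γ : Type} [Group Γ] [Fintype Γ] {R : Type} [CommRing R]
    (z w : MonoidAlgebra R Γ) (g : Γ) :
    (z * w).coeff g = ∑ a : Γ, z.coeff a * w.coeff (a⁻¹ * g) := by
  rw [MonoidAlgebra.coeff_mul]
  rw [Finsupp.sum_fintype _ _ (by intro i; simp)]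
  refine Finset.sum_congr rfl fun a _ => ?_
  rw [Finsupp.sum_fintype _ _ (by intro i; simp)]
  rw [Finset.sum_eq_single (a⁻¹ * g)]
  · simp
  · intro b _ hb
    rw [if_neg]
    rintro rfl
    exact hb (by simp)
  · intro h; exact absurd (Finset.mem_univ _) h

/-- elements of the group algebra supported on `N` and invariant under conjugation by `U` -/
def ZA (N U : Subgroup Γ) : Subalgebra R (MonoidAlgebra R Γ) where
  carrier := {z | (∀ g, g ∉ N → z.coeff g = 0) ∧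
    ∀ u ∈ U, ∀ g, z.coeff (u * g * u⁻¹) = z.coeff g}
  mul_mem' := by
    rintro z w ⟨hz, hz'⟩ ⟨hw, hw'⟩
    refine ⟨fun g hg => ?_, fun u hu g => ?_⟩
    · rw [coeff_mul_group]
      refine Finset.sum_eq_zero fun a _ => ?_
      by_cases ha : a ∈ N
      · rw [hw, mul_zero]
        intro h
        exact hg (by simpa using N.mul_mem ha h)
      · rw [hz a ha, zero_mul]
    · rw [coeff_mul_group, coeff_mul_group]
      rw [← Equiv.sum_comp (MulAut.conj u).toEquiv]
      refine Finset.sum_congr rfl fun a _ => ?_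
      have h1 : (MulAut.conj u).toEquiv a = u * a * u⁻¹ := by simp [MulAut.conj_apply]
      rw [h1, hz' u hu a]
      have h2 : (u * a * u⁻¹)⁻¹ * (u * g * u⁻¹) = u * (a⁻¹ * g) * u⁻¹ := by group
      rw [h2, hw' u hu]
  add_mem' := by
    rintro z w ⟨hz, hz'⟩ ⟨hw, hw'⟩
    refine ⟨fun g hg => ?_, fun u hu g => ?_⟩
    · rw [MonoidAlgebra.coeff_add, Finsupp.add_apply, hz g hg, hw g hg, add_zero]
    · rw [MonoidAlgebra.coeff_add, Finsupp.add_apply, Finsupp.add_apply, hz' u hu, hw' u hu]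
  algebraMap_mem' := by
    intro r
    refine ⟨fun g hg => ?_, fun u hu g => ?_⟩
    · rw [MonoidAlgebra.coe_algebraMap]
      simp only [Function.comp_apply, MonoidAlgebra.coeff_single, Finsupp.single_apply]
      rw [if_neg]
      rintro rfl
      exact hg N.one_mem
    · rw [MonoidAlgebra.coe_algebraMap]
      simp only [Function.comp_apply, MonoidAlgebra.coeff_single, Finsupp.single_apply]
      have : (1 = u * g * u⁻¹) ↔ (1 = g) := by
        constructor
        · intro h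
          have : g = u⁻¹ * (u * g * u⁻¹) * u := by group
          rw [this, ← h]; group
        · rintro rfl; group
      simp only [this]

theorem mem_ZA {N U : Subgroup Γ} {z : MonoidAlgebra R Γ} :
    z ∈ ZA R N U ↔ (∀ g, g ∉ N → z.coeff g = 0) ∧
      ∀ u ∈ U, ∀ g, z.coeff (u * g * u⁻¹) = z.coeff g := Iff.rfl

/-- `h` restricts to an `F`-algebra homomorphism from the centre `ZA F N N` of `F[N]` to `F` -/
structure CHom (N : Subgroup Γ) (h : MonoidAlgebra F Γ → F) : Prop where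
  map_one : h 1 = 1
  map_add : ∀ z ∈ ZA F N N, ∀ w ∈ ZA F N N, h (z + w) = h z + h w
  map_mul : ∀ z ∈ ZA F N N, ∀ w ∈ ZA F N N, h (z * w) = h z * h w
  map_smul : ∀ (c : F), ∀ z ∈ ZA F N N, h (c • z) = c * h z

/-- `D` is a defect group of the homomorphism `h` on the centre of `F[N]` -/
def DefH (ℓ : ℕ) (N : Subgroup Γ) (h : MonoidAlgebra F Γ → F) (D : Subgroup Γ) : Prop :=
  IsPGroup ℓ D ∧ D ≤ N ∧
  (∃ x ∈ N, h (csum F (cls N x)) ≠ 0 ∧ D ≤ Subgroup.centralizer {x} ∧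
    ¬ ℓ ∣ D.relIndex (Subgroup.centralizer {x} ⊓ N)) ∧
  ∀ x ∈ N, h (csum F (cls N x)) ≠ 0 →
    ∃ u ∈ N, ∀ d ∈ D, u * d * u⁻¹ ∈ Subgroup.centralizer {x}

/-- characters of height zero in the block of `χ`, expressed with `lam` -/
def K0H (ℓ : ℕ) (N : Subgroup Γ) (χ : Γ → ℂ) (D : Subgroup Γ) : Set (Γ → ℂ) :=
  {χ' | χ' ∈ IrrS N ∧ (∀ z ∈ ZA F N N, lam π χ' z = lam π χ z) ∧
    ∃ d : ℕ, χ' 1 = d ∧ padicValNat ℓ d = padicValNat ℓ (D.relIndex N)}

/-- conjugation of coefficients: `(cjA u z) g = z (u g u⁻¹)` -/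
noncomputable def cjA (u : Γ) (z : MonoidAlgebra F Γ) : MonoidAlgebra F Γ :=
  MonoidAlgebra.ofCoeff (Finsupp.equivFunOnFinite.symm fun g => z.coeff (u * g * u⁻¹))

/-- twisting of coefficients: `(twA μ z) g = μ(s g) z g` -/
noncomputable def twA {Q : Type} [CommGroup Q] (s : Γ →* Q) (μ : Q →* ℂˣ)
    (z : MonoidAlgebra F Γ) : MonoidAlgebra F Γ :=
  MonoidAlgebra.ofCoeff (Finsupp.equivFunOnFinite.symm fun g => rd π (μ (s g) : ℂ) * z.coeff g)

/-- elements `x ∈ N` such that every `ℓ`-subgroup of `N` centralising `x` lies in a member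
of `𝒟` -/
def SD (ℓ : ℕ) (N : Subgroup Γ) (𝒟 : Set (Subgroup Γ)) : Set Γ :=
  {x | x ∈ N ∧ ∀ R : Subgroup Γ, IsPGroup ℓ R → R ≤ N → R ≤ Subgroup.centralizer {x} →
    ∃ D ∈ 𝒟, R ≤ D}

/-- the set of `U`-conjugates of `P` -/
def conjs (U P : Subgroup Γ) : Set (Subgroup Γ) :=
  {D | ∃ u ∈ U, D = P.map (MulAut.conj u).toMonoidHom}

/-- truncation to the centraliser of `P` (the Brauer map) -/
noncomputable def br (P : Subgroup Γ) (z : MonoidAlgebra F Γ) : MonoidAlgebra F Γ :=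
  MonoidAlgebra.ofCoeff (z.coeff.filter (fun g => g ∈ Subgroup.centralizer (P : Set Γ)))

end Algebra

end AMc
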