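import Pool.Agent.H3.AM.Targets

/-!
# Alperin–McKay reduction to perfect groups: targets, part 2
(wreath products, transport, products with an `ℓ'`-group, existence, numerics)
-/

open scoped Classical ComplexConjugate

namespace AMc

/-! ## W. The wreath product `Γ = G ≀ᵣ X` -/

section W

variable {G X : Type} [Group G] [Group X]

/-- the subgroup `{(f, 1) | f x ∈ L}` -/
def base (X : Type) [Group X] (L : Subgroup G) : Subgroup (G ≀ᵣ X) where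
  carrier := {w | w.right = 1 ∧ ∀ x, w.left x ∈ L}
  mul_mem' := by
    rintro a b ⟨ha, ha'⟩ ⟨hb, hb'⟩
    refine ⟨by simp [ha, hb], fun x => ?_⟩
    simpa using L.mul_mem (ha' x) (hb' _)
  one_mem' := ⟨rfl, fun _ => L.one_mem⟩
  inv_mem' := by
    rintro a ⟨ha, ha'⟩
    refine ⟨by simp [ha], fun x => ?_⟩
    simpa using L.inv_mem (ha' _)

/-- the subgroup `{(f, σ) | f x ∈ L}` -/
def full (X : Type) [Group X] (L : Subgroup G) : Subgroup (G ≀ᵣ X) where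
  carrier := {w | ∀ x, w.left x ∈ L}
  mul_mem' := by
    rintro a b ha hb x
    simpa using L.mul_mem (ha x) (hb _)
  one_mem' := fun _ => L.one_mem
  inv_mem' := by
    rintro a ha x
    simpa using L.inv_mem (ha _)

/-- `(f, σ) ↦ ∏ x, q (f x)` -/
noncomputable def sQ (X : Type) [Group X] [Fintype X] {Q : Type} [CommGroup Q] (q : G →* Q) :
    G ≀ᵣ X →* Q where
  toFun w := ∏ x, q (w.left x)
  map_one' := by simp
  map_mul' a b := by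
    simp only [RegularWreathProduct.mul_left, Pi.mul_apply, map_mul, Finset.prod_mul_distrib]
    congr 1
    exact Fintype.prod_equiv (Equiv.mulLeft a.right⁻¹) _ _ (fun x => rfl)

/-- the product function -/
noncomputable def pr [Fintype X] (τ : X → (G → ℂ)) : G ≀ᵣ X → ℂ :=
  fun w => if w.right = 1 then ∏ x, τ x (w.left x) else 0

end W

/-- W1: the irreducible characters of `base L` are the products -/
def T_W1 : Prop := ∀ (G X : Type) [Group G] [Group X] [Fintype G] [Fintype X] [Fintype (G ≀ᵣ X)]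
  (L : Subgroup G),
  (∀ τ : X → (G → ℂ), (∀ x, τ x ∈ IrrS L) → pr τ ∈ IrrS (base X L)) ∧
  (∀ φ ∈ IrrS (base X L), ∃ τ : X → (G → ℂ), (∀ x, τ x ∈ IrrS L) ∧ pr τ = φ) ∧
  (∀ τ τ' : X → (G → ℂ), (∀ x, τ x ∈ IrrS L) → (∀ x, τ' x ∈ IrrS L) → pr τ = pr τ' → τ = τ')

/-- W2: blocks of `base L` -/
def T_W2 : Prop := ∀ (F : Type) [Field F] (π : integralClosure ℤ ℂ →+* F),
  Function.Surjective π → ∀ (ℓ : ℕ) [Fact ℓ.Prime] [CharP F ℓ]
  (G X : Type) [Group G] [Group X] [Fintype G] [Fintype X] [Fintype (G ≀ᵣ X)]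
  (L : Subgroup G) (τ τ' : X → (G → ℂ)), (∀ x, τ x ∈ IrrS L) → (∀ x, τ' x ∈ IrrS L) →
  ((∀ z ∈ ZA F (base X L) (base X L), lam π (pr τ') z = lam π (pr τ) z) ↔
    ∀ x, ∀ z ∈ ZA F L L, lam π (τ' x) z = lam π (τ x) z)

/-- W3: defect groups of `base L` -/
def T_W3 : Prop := ∀ (F : Type) [Field F] (π : integralClosure ℤ ℂ →+* F),
  Function.Surjective π → ∀ (ℓ : ℕ) [Fact ℓ.Prime] [CharP F ℓ]
  (G X : Type) [Group G] [Group X] [Fintype G] [Fintype X] [Fintype (G ≀ᵣ X)]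
  (L D : Subgroup G) (τ : X → (G → ℂ)), (∀ x, τ x ∈ IrrS L) →
  (∀ x, DefH ℓ L (lam π (τ x)) D) → DefH ℓ (base X L) (lam π (pr τ)) (base X D)

/-- W4: Brauer correspondence of `base L` -/
def T_W4 : Prop := ∀ (F : Type) [Field F] (π : integralClosure ℤ ℂ →+* F),
  Function.Surjective π → ∀ (ℓ : ℕ) [Fact ℓ.Prime] [CharP F ℓ]
  (G X : Type) [Group G] [Group X] [Fintype G] [Fintype X] [Fintype (G ≀ᵣ X)]
  (L D : Subgroup G) (τ τ' : X → (G → ℂ)), (∀ x, τ x ∈ IrrS L) →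
  (∀ x, τ' x ∈ IrrS (L ⊓ Subgroup.normalizer (D : Set G))) →
  (∀ x, ∀ z ∈ ZA F L L, lam π (τ x) z = lam π (τ' x) (br D z)) →
  ∀ z ∈ ZA F (base X L) (base X L), lam π (pr τ) z = lam π (pr τ') (br (base X D) z)

/-- W5: group theory of the wreath product -/
def T_W5 : Prop := ∀ (G X : Type) [Group G] [Group X] [Fintype G] [Fintype X]
  (Q : Type) [CommGroup Q] (q : G →* Q) (L D : Subgroup G), 3 ≤ Nat.card X →
  Quad (sQ X q) (full X L) (base X L) ∧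
  Subgroup.normalizer ((base X D ⊓ (sQ X q).ker : Subgroup (G ≀ᵣ X)) : Set (G ≀ᵣ X)) =
    full X (Subgroup.normalizer (D : Set G)) ∧
  (∀ w : G ≀ᵣ X, w.right = 1 →
    (w ∈ Subgroup.centralizer ((base X D ⊓ (sQ X q).ker : Subgroup (G ≀ᵣ X)) : Set (G ≀ᵣ X)) ↔
      w ∈ Subgroup.centralizer ((base X D : Subgroup (G ≀ᵣ X)) : Set (G ≀ᵣ X)))) ∧
  (base X D).relIndex (base X L) = D.relIndex L ^ Nat.card X ∧
  (∀ L' : Subgroup G, base X L ⊓ full X L' = base X (L ⊓ L') ∧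
    full X L ⊓ full X L' = full X (L ⊓ L')) ∧
  full X (⊤ : Subgroup G) = ⊤

/-- W6: perfectness of the kernel -/
def T_W6 : Prop := ∀ (G X : Type) [Group G] [Group X] [Fintype G] [Fintype X],
  commutator X = ⊤ → 3 ≤ Nat.card X →
  commutator (sQ X (Abelianization.of : G →* Abelianization G)).ker = ⊤ ∧
  Nat.card X ≤ Nat.card (sQ X (Abelianization.of : G →* Abelianization G)).ker ∧
  Nat.card (sQ X (Abelianization.of : G →* Abelianization G)).ker ≤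
    Nat.card G ^ Nat.card X * Nat.card X

/-- W7: the tuple twisted at one coordinate is not invariant -/
def T_W7 : Prop := ∀ (F : Type) [Field F] (π : integralClosure ℤ ℂ →+* F),
  Function.Surjective π → ∀ (ℓ : ℕ) [Fact ℓ.Prime] [CharP F ℓ]
  (G X : Type) [Group G] [Group X] [Fintype G] [Fintype X] [Fintype (G ≀ᵣ X)]
  (Q : Type) [CommGroup Q] [Finite Q] (q : G →* Q) (L : Subgroup G) (α : Q →* ℂˣ) (t : G)
  (r : ℕ), (∀ g, t * g = g * t) → t ∈ L → (α (q t)) ^ r = 1 → ¬ ℓ ∣ r → α (q t) ≠ 1 →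
  3 ≤ Nat.card X → ∀ χ ∈ IrrS L, (∀ g, χ (t * g) = χ g) →
  NI π (sQ X q) (full X L) (base X L) (pr (fun x : X => if x = 1 then tw q α χ else χ))

/-- W8: counting the tuples with few coordinates of positive height -/
def T_W8 : Prop := ∀ (F : Type) [Field F] (π : integralClosure ℤ ℂ →+* F),
  Function.Surjective π → ∀ (ℓ : ℕ) [Fact ℓ.Prime] [CharP F ℓ]
  (G X : Type) [Group G] [Group X] [Fintype G] [Fintype X] [Fintype (G ≀ᵣ X)]
  (L D : Subgroup G) (τ : X → (G → ℂ)) (v k C : ℕ), (∀ x, τ x ∈ IrrS L) →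
  (∀ x, DefH ℓ L (lam π (τ x)) D) → (∀ x, (K0H π ℓ L (τ x) D).ncard = v) →
  (IrrS L).ncard ≤ k →
  (K0H π ℓ (base X L) (pr τ) (base X D)).ncard = v ^ Nat.card X ∧
  {ψ' | ψ' ∈ IrrS (base X L) ∧
      (∀ z ∈ ZA F (base X L) (base X L), lam π ψ' z = lam π (pr τ) z) ∧
      ∃ d : ℕ, ψ' 1 = d ∧ padicValNat ℓ d ≤ padicValNat ℓ ((base X D).relIndex (base X L)) + C}.ncard
    ≤ (if v = 0 ∧ C < Nat.card X then 0 else
        Nat.card X ^ C * k ^ C * (max v 1) ^ Nat.card X)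

/-- W9: twisting a block -/
def T_W9 : Prop := ∀ (F : Type) [Field F] (π : integralClosure ℤ ℂ →+* F),
  Function.Surjective π → ∀ (ℓ : ℕ) [Fact ℓ.Prime] [CharP F ℓ]
  (Γ : Type) [Group Γ] [Fintype Γ] (Q : Type) [CommGroup Q] [Finite Q] (s : Γ →* Q)
  (μ : Q →* ℂˣ) (N D : Subgroup Γ), ∀ θ ∈ IrrS N,
  (DefH ℓ N (lam π θ) D → DefH ℓ N (lam π (tw s μ θ)) D) ∧
  (K0H π ℓ N (tw s μ θ) D).ncard = (K0H π ℓ N θ D).ncard ∧
  (∀ ψ ∈ IrrS (N ⊓ Subgroup.normalizer (D : Set Γ)),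
    (∀ z ∈ ZA F N N, lam π θ z = lam π ψ (br D z)) →
    ∀ z ∈ ZA F N N, lam π (tw s μ θ) z = lam π (tw s μ ψ) (br D z))

/-! ## Y. Existence -/

/-- Y1: perfect groups of arbitrarily large order -/
def T_Y1 : Prop := ∀ n : ℕ, ∃ (X : Type) (_ : Group X) (_ : Fintype X),
  commutator X = ⊤ ∧ n ≤ Nat.card X

/-- Y2: a cyclic group of order prime to `ℓ` with a nontrivial linear character -/
def T_Y2 : Prop := ∀ ℓ : ℕ, ℓ.Prime → ∃ (T : Type) (_ : CommGroup T) (_ : Fintype T)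
  (a : T →* ℂˣ) (t : T), ¬ ℓ ∣ Nat.card T ∧ a t ≠ 1

/-! ## K. Transport from types to the ambient group -/

/-- extension by zero along `j : N →* Γ` -/
noncomputable def extj {N Γ : Type} [Group N] [Group Γ] (j : N →* Γ) (ψ : N → ℂ) : Γ → ℂ :=
  fun g => if h : ∃ n, j n = g then ψ h.choose else 0

/-- K1: irreducible characters -/
def T_K1 : Prop := ∀ (N Γ : Type) [Group N] [Fintype N] [Group Γ] [Fintype Γ] (j : N →* Γ),
  Function.Injective j →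
  (∀ ψ : N → ℂ, ∀ n, extj j ψ (j n) = ψ n) ∧
  (∀ ψ : N → ℂ, ψ ∈ Irr N ↔ extj j ψ ∈ IrrS j.range) ∧
  (∀ θ ∈ IrrS j.range, ∃ ψ ∈ Irr N, extj j ψ = θ) ∧
  (∀ (N' : Type) [Group N'] (i : N' →* N), Function.Injective i → ∀ ψ : N' → ℂ,
    extj j (extj i ψ) = extj (j.comp i) ψ)

/-- K2: the notions of the statement in the ambient group -/
def T_K2 : Prop := ∀ (N Γ : Type) [Group N] [Fintype N] [Group Γ] [Fintype Γ] (j : N →* Γ),
  Function.Injective j → ∀ (𝔪 : Ideal (integralClosure ℤ ℂ)) (ℓ : ℕ) (χ : N → ℂ)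
  (D : Subgroup N),
  (IsDefect ℓ 𝔪 χ D ↔ IsDefS ℓ 𝔪 j.range (extj j χ) (D.map j)) ∧
  k0 ℓ 𝔪 χ D = (K0S ℓ 𝔪 j.range (extj j χ) (D.map j)).ncard ∧
  (∀ (N' : Type) [Group N'] [Fintype N'] (i : N' →* N), Function.Injective i → ∀ ψ : N' → ℂ,
    (Corr 𝔪 i χ ψ ↔ CorrS 𝔪 j.range (extj j χ) (extj (j.comp i) ψ))) ∧
  (Subgroup.normalizer (D : Set N)).map j =
    j.range ⊓ Subgroup.normalizer ((D.map j : Subgroup Γ) : Set Γ)

/-! ## I. Direct product with an `ℓ'`-group `T` (ambient group `G × T`) -/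

/-- I1: inflation from `G` to `G × T` -/
def T_I1 : Prop := ∀ (F : Type) [Field F] (π : integralClosure ℤ ℂ →+* F),
  Function.Surjective π → ∀ (ℓ : ℕ) [Fact ℓ.Prime] [CharP F ℓ]
  (G T : Type) [Group G] [Fintype G] [CommGroup T] [Fintype T], ¬ ℓ ∣ Nat.card T →
  ∀ (L D : Subgroup G), D ≤ L → ∀ θ ∈ IrrS L,
  (fun p : G × T => θ p.1) ∈ IrrS (L.prod (⊤ : Subgroup T)) ∧
  (DefH ℓ L (lam π θ) D →
    DefH ℓ (L.prod (⊤ : Subgroup T)) (lam π (fun p : G × T => θ p.1)) (D.prod ⊥)) ∧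
  (K0H π ℓ (L.prod (⊤ : Subgroup T)) (fun p : G × T => θ p.1) (D.prod ⊥)).ncard =
    (K0H π ℓ L θ D).ncard ∧
  (∀ ψ ∈ IrrS (L ⊓ Subgroup.normalizer (D : Set G)),
    (∀ z ∈ ZA F L L, lam π θ z = lam π ψ (br D z)) →
    ∀ z ∈ ZA F (L.prod (⊤ : Subgroup T)) (L.prod (⊤ : Subgroup T)),
      lam π (fun p : G × T => θ p.1) z =
        lam π (fun p : G × T => ψ p.1) (br (D.prod (⊥ : Subgroup T)) z)) ∧
  Subgroup.normalizer ((D.prod (⊥ : Subgroup T) : Subgroup (G × T)) : Set (G × T)) =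
    (Subgroup.normalizer (D : Set G)).prod ⊤

/-! ## Z. Numerics -/

/-- Z1: the final inequality -/
def T_Z1 : Prop := ∀ (g c k u v : ℕ), 1 ≤ g → v < u → ∃ ε : ℝ, 0 < ε ∧ ∀ n₀ : ℕ, ∃ m₀ : ℕ,
  n₀ ≤ m₀ ∧ c < m₀ ∧ 3 ≤ m₀ ∧ ∀ m : ℕ, m₀ ≤ m → ∀ N A B : ℕ, N ≤ g ^ m * m →
    u ^ m ≤ c * A → (A : ℝ) ≤ (N : ℝ) ^ ε * B →
    B ≤ c * (if v = 0 ∧ c < m then 0 else m ^ c * k ^ c * (max v 1) ^ m) → False

/-! ## The main theorem -/

/-- the two inequalities of the Alperin–McKay conjecture for the group `H`, up to a factor `c` -/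
def AMle (ℓ : ℕ) (𝔪 : Ideal (integralClosure ℤ ℂ)) (c : ℝ) (H : Type) [Group H] [Fintype H] :
    Prop :=
  ∀ (D : Subgroup H) (χ : H → ℂ) (ψ : Subgroup.normalizer (D : Set H) → ℂ),
    χ ∈ Irr H → ψ ∈ Irr (Subgroup.normalizer (D : Set H)) → IsDefect ℓ 𝔪 χ D →
    Corr 𝔪 (Subgroup.normalizer (D : Set H)).subtype χ ψ →
    (k0 ℓ 𝔪 χ D : ℝ) ≤ c * k0 ℓ 𝔪 ψ (D.subgroupOf (Subgroup.normalizer (D : Set H)))

/-- the reversed inequality -/
def AMge (ℓ : ℕ) (𝔪 : Ideal (integralClosure ℤ ℂ)) (c : ℝ) (H : Type) [Group H] [Fintype H] :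
    Prop :=
  ∀ (D : Subgroup H) (χ : H → ℂ) (ψ : Subgroup.normalizer (D : Set H) → ℂ),
    χ ∈ Irr H → ψ ∈ Irr (Subgroup.normalizer (D : Set H)) → IsDefect ℓ 𝔪 χ D →
    Corr 𝔪 (Subgroup.normalizer (D : Set H)).subtype χ ψ →
    (k0 ℓ 𝔪 ψ (D.subgroupOf (Subgroup.normalizer (D : Set H))) : ℝ) ≤ c * k0 ℓ 𝔪 χ D

/-- the main theorem -/
def T_MAIN : Prop := ∀ (ℓ : ℕ) [Fact ℓ.Prime] (𝔪 : Ideal (integralClosure ℤ ℂ)), 𝔪.IsMaximal →
  (ℓ : integralClosure ℤ ℂ) ∈ 𝔪 →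
  ((∀ ε : ℝ, 0 < ε → ∃ n₀ : ℕ, ∀ (H : Type) [Group H] [Fintype H], commutator H = ⊤ →
      n₀ ≤ Nat.card H → AMle ℓ 𝔪 ((Nat.card H : ℝ) ^ ε) H) →
    ∀ (G : Type) [Group G] [Fintype G], AMle ℓ 𝔪 1 G) ∧
  ((∀ ε : ℝ, 0 < ε → ∃ n₀ : ℕ, ∀ (H : Type) [Group H] [Fintype H], commutator H = ⊤ →
      n₀ ≤ Nat.card H → AMge ℓ 𝔪 ((Nat.card H : ℝ) ^ ε) H) →
    ∀ (G : Type) [Group G] [Fintype G], AMge ℓ 𝔪 1 G)

end AMc
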